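import Pool.Agent.N439.OD.Three
import Pool.Agent.TH173.TO.Chordal

/-!
# The non-adjacency graph is chordal

`R` is an oriented graph on the natural numbers. If every four vertices of `S` contain three
pairwise non-adjacent vertices or a vertex which dominates two others, then the graph of the
non-adjacent pairs has simplicial vertices outside any clique, hence elimination orders with any
given last vertex.
-/

set_option autoImplicit false
open Finset

namespace Pool.Agent.N439.OD
open Pool.Agent.TH173.TO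

/-- adjacency -/
def ad (R : ℕ → ℕ → Bool) (x y : ℕ) : Bool := R x y || R y x

theorem C_iff {R : ℕ → ℕ → Bool} {x y : ℕ} :
    C (ad R) x y ↔ x ≠ y ∧ R x y = false ∧ R y x = false := by
  unfold C ad
  simp only [Bool.or_eq_false_iff]
  constructor
  · rintro (⟨h1, h2, h3⟩ | ⟨h1, h2, h3⟩)
    · exact ⟨by omega, h2, h3⟩
    · exact ⟨by omega, h3, h2⟩
  · rintro ⟨h1, h2, h3⟩
    rcases Nat.lt_or_gt_of_ne h1 with h | h
    · exact Or.inl ⟨h, h2, h3⟩
    · exact Or.inr ⟨h, h3, h2⟩

/-- the out-neighbours in `S` -/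
def ol (R : ℕ → ℕ → Bool) (S : Finset ℕ) (v : ℕ) : Finset ℕ := S.filter fun u => R v u = true

theorem mem_ol {R : ℕ → ℕ → Bool} {S : Finset ℕ} {u v : ℕ} :
    u ∈ ol R S v ↔ u ∈ S ∧ R v u = true := by
  unfold ol
  rw [mem_filter]

/-- `R` is an oriented graph, and every four vertices of `S` contain three pairwise non-adjacent
vertices or a vertex which dominates two others -/
structure Cv (R : ℕ → ℕ → Bool) (S : Finset ℕ) : Prop where
  ori : ∀ x y, R x y = true → R y x = false
  cov : ∀ Q ⊆ S, Q.card = 4 → (∃ v ∈ Q, 2 ≤ (ol R Q v).card) ∨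
    ∃ x ∈ Q, ∃ y ∈ Q, ∃ z ∈ Q, C (ad R) x y ∧ C (ad R) x z ∧ C (ad R) y z

theorem Cv.mono {R : ℕ → ℕ → Bool} {S T : Finset ℕ} (h : Cv R S) (hT : T ⊆ S) : Cv R T where
  ori := h.ori
  cov := fun Q hQ => h.cov Q (hQ.trans hT)

theorem Cv.irr {R : ℕ → ℕ → Bool} {S : Finset ℕ} (h : Cv R S) (x : ℕ) : R x x = false := by
  by_contra hx
  rw [Bool.not_eq_false] at hx
  rw [h.ori x x hx] at hx
  exact Bool.noConfusion hx

/-- The lists of the out-neighbours and any lists for the non-adjacent pairs. -/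
theorem sys_of {R : ℕ → ℕ → Bool} {S : Finset ℕ} (h : Cv R S) (B : ℕ → Finset ℕ)
    (hB : ∀ x ∈ S, ∀ y ∈ B x, y ∈ S → C (ad R) x y)
    (hB2 : ∀ x ∈ S, ∀ y ∈ S, x ∈ B y → y ∉ B x)
    (hB3 : ∀ x ∈ S, ∀ y ∈ S, ∀ z ∈ S, C (ad R) x y → C (ad R) x z → C (ad R) y z →
      (y ∈ B x ∧ z ∈ B x) ∨ (x ∈ B y ∧ z ∈ B y) ∨ (x ∈ B z ∧ y ∈ B z)) :
    Sys (ol R S) B S where
  irA := by
    intro x _ hx
    rw [mem_ol, h.irr x] at hx
    exact Bool.noConfusion hx.2
  irB := by
    intro x hx hx'
    exact (hB x hx x hx' hx).ne rfl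
  one := by
    intro x hx y hy hxy
    constructor
    · intro h1
      rw [mem_ol] at h1
      have h2 := h.ori y x h1.2
      refine ⟨?_, ?_, ?_⟩
      · rw [mem_ol, h2]
        rintro ⟨_, h3⟩
        exact Bool.noConfusion h3
      · intro h3
        have := (C_iff.1 (hB y hy x h3 hx)).2.1
        rw [h1.2] at this
        exact Bool.noConfusion this
      · intro h3
        have := (C_iff.1 (hB x hx y h3 hy)).2.2
        rw [h1.2] at this
        exact Bool.noConfusion this
    · intro h1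
      have h2 := C_iff.1 (hB y hy x h1 hx)
      refine ⟨hB2 x hx y hy h1, ?_, ?_⟩
      · rw [mem_ol, h2.2.1]
        rintro ⟨_, h3⟩
        exact Bool.noConfusion h3
      · rw [mem_ol, h2.2.2]
        rintro ⟨_, h3⟩
        exact Bool.noConfusion h3
  cov := by
    intro Q hQ hQ4
    rcases h.cov Q hQ hQ4 with ⟨v, hv, h2⟩ | ⟨x, hx, y, hy, z, hz, h1, h2, h3⟩
    · refine ⟨v, hv, Or.inl ?_⟩
      refine h2.trans (card_le_card ?_)
      intro u hu
      rw [mem_ol] at hu
      exact mem_inter.2 ⟨mem_ol.2 ⟨hQ hu.1, hu.2⟩, hu.1⟩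
    · rcases hB3 x (hQ hx) y (hQ hy) z (hQ hz) h1 h2 h3 with ⟨h4, h5⟩ | ⟨h4, h5⟩ | ⟨h4, h5⟩
      · exact ⟨x, hx, Or.inr (one_lt_card.2 ⟨y, mem_inter.2 ⟨h4, hy⟩, z, mem_inter.2 ⟨h5, hz⟩,
          h3.ne⟩)⟩
      · exact ⟨y, hy, Or.inr (one_lt_card.2 ⟨x, mem_inter.2 ⟨h4, hx⟩, z, mem_inter.2 ⟨h5, hz⟩,
          h2.ne⟩)⟩
      · exact ⟨z, hz, Or.inr (one_lt_card.2 ⟨x, mem_inter.2 ⟨h4, hx⟩, y, mem_inter.2 ⟨h5, hy⟩,
          h1.ne⟩)⟩

/-- Two different sinks are not adjacent. -/
theorem sinks_C {R : ℕ → ℕ → Bool} {S : Finset ℕ} {x y : ℕ}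
    (hx : x ∈ emp (ol R S) S) (hy : y ∈ emp (ol R S) S) (hxy : x ≠ y) : C (ad R) x y := by
  rw [mem_emp] at hx hy
  rw [C_iff]
  refine ⟨hxy, ?_, ?_⟩
  · by_contra h
    rw [Bool.not_eq_false] at h
    have : y ∈ ol R S x ∩ S := mem_inter.2 ⟨mem_ol.2 ⟨hy.1, h⟩, hy.1⟩
    rw [hx.2] at this
    simp at this
  · by_contra h
    rw [Bool.not_eq_false] at h
    have : x ∈ ol R S y ∩ S := mem_inter.2 ⟨mem_ol.2 ⟨hx.1, h⟩, hx.1⟩
    rw [hy.2] at this
    simp at this

/-- There is no induced cycle of length `m ≥ 4` in the non-adjacency graph. -/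
theorem no_cycle {R : ℕ → ℕ → Bool} {S : Finset ℕ} (h : Cv R S) {m : ℕ} (hm : 4 ≤ m) (q : ℕ → ℕ)
    (hqS : ∀ i < m, q i ∈ S) (hinj : ∀ i < m, ∀ j < m, q i = q j → i = j)
    (hC : ∀ i, i + 1 < m → C (ad R) (q i) (q (i + 1))) (hC0 : C (ad R) (q 0) (q (m - 1)))
    (hnC : ∀ i j, i < j → j < m → C (ad R) (q i) (q j) → j = i + 1 ∨ (i = 0 ∧ j = m - 1)) :
    False := by
  classical
  set U := (range m).image q with hU
  have hUS : U ⊆ S := by
    intro x hx
    rw [hU, mem_image] at hx
    obtain ⟨i, hi, rfl⟩ := hx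
    exact hqS i (mem_range.1 hi)
  have hmU : ∀ i < m, q i ∈ U := fun i hi => mem_image.2 ⟨i, mem_range.2 hi, rfl⟩
  have notri : ∀ x ∈ U, ∀ y ∈ U, ∀ z ∈ U, C (ad R) x y → C (ad R) x z → C (ad R) y z → False := by
    have key : ∀ i j k, i < j → j < k → k < m → C (ad R) (q i) (q j) → C (ad R) (q i) (q k) →
        C (ad R) (q j) (q k) → False := by
      intro i j k hij hjk hk h1 h2 h3
      have e1 := hnC i j hij (by omega) h1
      have e2 := hnC i k (by omega) hk h2
      have e3 := hnC j k hjk hk h3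
      omega
    intro x hx y hy z hz h1 h2 h3
    rw [hU, mem_image] at hx hy hz
    obtain ⟨i, hi, rfl⟩ := hx
    obtain ⟨j, hj, rfl⟩ := hy
    obtain ⟨k, hk, rfl⟩ := hz
    rw [mem_range] at hi hj hk
    have n1 : i ≠ j := fun e => h1.ne (by rw [e])
    have n2 : i ≠ k := fun e => h2.ne (by rw [e])
    have n3 : j ≠ k := fun e => h3.ne (by rw [e])
    rcases Nat.lt_or_gt_of_ne n1 with l1 | l1 <;> rcases Nat.lt_or_gt_of_ne n2 with l2 | l2 <;>
      rcases Nat.lt_or_gt_of_ne n3 with l3 | l3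
    · exact key i j k l1 l3 hk h1 h2 h3
    · exact key i k j l2 l3 hj h2 h1 h3.symm
    · omega
    · exact key k i j l2 l1 hj h2.symm h3.symm h1
    · exact key j i k l1 l2 hk h1.symm h3 h2
    · omega
    · exact key j k i l3 l2 hi h3 h1.symm h2.symm
    · exact key k j i l3 l1 hi h3.symm h2.symm h1.symm
  -- the lists of the cycle
  set nx : ℕ → ℕ → Prop := fun x y => ∃ i < m, x = q i ∧ y = q ((i + 1) % m) with hnx
  set B : ℕ → Finset ℕ := fun x => U.filter fun y => nx x y with hB
  have hmod : ∀ i < m, (i + 1 < m ∧ (i + 1) % m = i + 1) ∨ (i + 1 = m ∧ (i + 1) % m = 0) := by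
    intro i hi
    rcases Nat.lt_or_ge (i + 1) m with h1 | h1
    · exact Or.inl ⟨h1, Nat.mod_eq_of_lt h1⟩
    · have : i + 1 = m := by omega
      exact Or.inr ⟨this, by rw [this]; exact Nat.mod_self m⟩
  have hnxC : ∀ x y, nx x y → C (ad R) x y := by
    rintro x y ⟨i, hi, rfl, rfl⟩
    rcases hmod i hi with ⟨h1, h2⟩ | ⟨h1, h2⟩
    · rw [h2]
      exact hC i h1
    · rw [h2]
      have : i = m - 1 := by omega
      rw [this]
      exact hC0.symm
  have hsys : Sys (ol R U) B U := by
    apply sys_of (h.mono hUS)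
    · intro x _ y hy _
      rw [hB, mem_filter] at hy
      exact hnxC x y hy.2
    · intro x _ y _ hxy hyx
      rw [hB, mem_filter] at hxy hyx
      obtain ⟨i, hi, e1, e2⟩ := hxy.2
      obtain ⟨j, hj, e3, e4⟩ := hyx.2
      rw [e3] at e2
      rw [e4] at e1
      have l1 := hmod i hi
      have l2 := hmod j hj
      have a1 := hinj _ (by omega) _ (by omega) e1
      have a2 := hinj _ (by omega) _ (by omega) e2
      omega
    · intro x hx y hy z hz h1 h2 h3
      exact (notri x hx y hy z hz h1 h2 h3).elim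
  have hcard : U.card = m := by
    rw [hU, card_image_of_injOn, card_range]
    intro i hi j hj hij
    rw [coe_range, Set.mem_Iio] at hi hj
    exact hinj i hi j hj hij
  have h3 := three (m - 2) U (by omega) hsys
  have hBe : emp B U = ∅ := by
    rw [eq_empty_iff_forall_notMem]
    intro v hv
    rw [mem_emp] at hv
    obtain ⟨hvU, he⟩ := hv
    rw [hU, mem_image] at hvU
    obtain ⟨i, hi, rfl⟩ := hvU
    rw [mem_range] at hi
    have hlt : (i + 1) % m < m := Nat.mod_lt _ (by omega)
    have : q ((i + 1) % m) ∈ B (q i) ∩ U := by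
      rw [mem_inter, hB, mem_filter]
      exact ⟨⟨hmU _ hlt, i, hi, rfl, rfl⟩, hmU _ hlt⟩
    rw [he] at this
    simp at this
  rw [hBe, card_empty, add_zero] at h3
  obtain ⟨Q, hQ, hQ3⟩ := exists_subset_card_eq h3
  obtain ⟨x, y, z, hxy, hxz, hyz, rfl⟩ := card_eq_three.1 hQ3
  have hx := hQ (show x ∈ ({x, y, z} : Finset ℕ) by simp)
  have hy := hQ (show y ∈ ({x, y, z} : Finset ℕ) by simp)
  have hz := hQ (show z ∈ ({x, y, z} : Finset ℕ) by simp)
  exact notri x (mem_emp.1 hx).1 y (mem_emp.1 hy).1 z (mem_emp.1 hz).1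
    (sinks_C hx hy hxy) (sinks_C hx hz hxz) (sinks_C hy hz hyz)

/-- a chain of non-adjacent pairs from `u` to `v` with interior in `K` -/
def Chn (R : ℕ → ℕ → Bool) (K : ℕ → Prop) (u v l : ℕ) : Prop :=
  ∃ p : ℕ → ℕ, p 0 = u ∧ p l = v ∧ (∀ i < l, C (ad R) (p i) (p (i + 1))) ∧
    ∀ i, 0 < i → i < l → K (p i)

theorem shortcut {R : ℕ → ℕ → Bool} {K : ℕ → Prop} {u v l i d : ℕ} (p : ℕ → ℕ)
    (h0 : p 0 = u) (hl : p l = v) (hC : ∀ i < l, C (ad R) (p i) (p (i + 1)))
    (hK : ∀ i, 0 < i → i < l → K (p i)) (hd : i + d ≤ l)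
    (h1 : i + d < l → C (ad R) (p i) (p (i + 1 + d))) (h2 : i + d = l → p i = v) :
    Chn R K u v (l - d) := by
  refine ⟨fun k => if k ≤ i then p k else p (k + d), ?_, ?_, ?_, ?_⟩
  · simp [h0]
  · by_cases h : l - d ≤ i
    · simp only [h, if_true]
      have e : l - d = i := by omega
      rw [e]
      exact h2 (by omega)
    · simp only [h, if_false]
      rw [← hl]
      congr 1
      omega
  · intro k hk
    by_cases h : k + 1 ≤ i
    · have h' : k ≤ i := by omega
      simp only [h, h', if_true]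
      exact hC k (by omega)
    · by_cases h' : k ≤ i
      · have e : k = i := by omega
        subst e
        simp only [h, le_refl, if_true, if_false]
        exact h1 (by omega)
      · simp only [h, h', if_false]
        have e : k + 1 + d = k + d + 1 := by omega
        rw [e]
        exact hC _ (by omega)
  · intro k hk1 hk2
    by_cases h : k ≤ i
    · simp only [h, if_true]
      exact hK k hk1 (by omega)
    · simp only [h, if_false]
      exact hK _ (by omega) (by omega)

/-- Two neighbours of `t` which are joined outside the closed neighbourhood of `t` are adjacent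
(in the non-adjacency graph). -/
theorem sep_pair {R : ℕ → ℕ → Bool} {S : Finset ℕ} (h : Cv R S) {K : ℕ → Prop} {t u v l : ℕ}
    (ht : t ∈ S) (hu : u ∈ S) (hv : v ∈ S) (hut : C (ad R) u t) (hvt : C (ad R) v t) (huv : u ≠ v)
    (hK : ∀ x, K x → x ∈ S ∧ x ≠ t ∧ ¬ C (ad R) x t) (hc : Chn R K u v l) : C (ad R) u v := by
  classical
  by_contra hn
  have hex : ∃ l, Chn R K u v l := ⟨l, hc⟩
  set L := Nat.find hex with hL
  obtain ⟨p, h0, hl, hC, hKp⟩ := Nat.find_spec hex
  rw [← hL] at hl hC hKp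
  have hmin : ∀ l', l' < L → ¬ Chn R K u v l' := fun l' hl' => Nat.find_min hex hl'
  have hL2 : 2 ≤ L := by
    by_contra hlt
    have : L = 0 ∨ L = 1 := by omega
    rcases this with e | e
    · rw [e] at hl
      exact huv (h0.symm.trans hl)
    · have := hC 0 (by omega)
      rw [zero_add, h0, ← e, hl] at this
      exact hn this
  have hne : ∀ i j, i < j → j ≤ L → p i ≠ p j := by
    intro i j hij hj he
    refine hmin (L - (j - i)) (by omega) (shortcut p h0 hl hC hKp (i := i) (by omega) ?_ ?_)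
    · intro hlt
      have e : i + 1 + (j - i) = j + 1 := by omega
      rw [e, he]
      exact hC j (by omega)
    · intro heq
      rw [he, ← hl]
      congr 1
      omega
  have hnC : ∀ i j, i + 1 < j → j ≤ L → ¬ C (ad R) (p i) (p j) := by
    intro i j hij hj he
    refine hmin (L - (j - i - 1)) (by omega) (shortcut p h0 hl hC hKp (i := i) (by omega) ?_ ?_)
    · intro _
      have e : i + 1 + (j - i - 1) = j := by omega
      rw [e]
      exact he
    · intro heq
      omega
  have hpS : ∀ i ≤ L, p i ∈ S ∧ p i ≠ t ∧ (C (ad R) (p i) t → i = 0 ∨ i = L) := by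
    intro i hi
    rcases Nat.eq_zero_or_pos i with e | e
    · rw [e, h0]
      exact ⟨hu, hut.ne, fun _ => Or.inl rfl⟩
    · rcases Nat.lt_or_ge i L with e' | e'
      · have := hK _ (hKp i e e')
        exact ⟨this.1, this.2.1, fun h => absurd h this.2.2⟩
      · have e2 : i = L := by omega
        rw [e2, hl]
        exact ⟨hv, hvt.ne, fun _ => Or.inr rfl⟩
  refine no_cycle h (m := L + 2) (by omega) (fun k => if k ≤ L then p k else t) ?_ ?_ ?_ ?_ ?_
  · intro i _
    by_cases h1 : i ≤ L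
    · simp only [h1, if_true]
      exact (hpS i h1).1
    · simp only [h1, if_false]
      exact ht
  · intro i hi j hj hij
    by_cases h1 : i ≤ L
    · by_cases h2 : j ≤ L
      · simp only [h1, h2, if_true] at hij
        rcases Nat.lt_trichotomy i j with h3 | h3 | h3
        · exact absurd hij (hne i j h3 h2)
        · exact h3
        · exact absurd hij.symm (hne j i h3 h1)
      · simp only [h1, h2, if_true, if_false] at hij
        exact absurd hij (hpS i h1).2.1
    · by_cases h2 : j ≤ L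
      · simp only [h1, h2, if_true, if_false] at hij
        exact absurd hij.symm (hpS j h2).2.1
      · omega
  · intro i hi
    by_cases h1 : i + 1 ≤ L
    · have h2 : i ≤ L := by omega
      simp only [h1, h2, if_true]
      exact hC i (by omega)
    · have h2 : i = L := by omega
      have h3 : i ≤ L := by omega
      simp only [h1, h3, if_false, if_true]
      rw [h2, hl]
      exact hvt
  · have h1 : ¬ L + 2 - 1 ≤ L := by omega
    simp only [h1, if_false, zero_le, if_true, h0]
    exact hut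
  · intro i j hij hj hc
    by_cases h1 : j ≤ L
    · have h2 : i ≤ L := by omega
      simp only [h1, h2, if_true] at hc
      left
      by_contra h3
      exact hnC i j (by omega) h1 hc
    · have h2 : i ≤ L := by omega
      simp only [h1, h2, if_true, if_false] at hc
      rcases (hpS i h2).2.2 hc with h3 | h3
      · right
        omega
      · left
        omega

theorem chain_of {r : ℕ → ℕ → Prop} {a b : ℕ} (h : Relation.ReflTransGen r a b) :
    ∃ (l : ℕ) (p : ℕ → ℕ), p 0 = a ∧ p l = b ∧ ∀ i < l, r (p i) (p (i + 1)) := by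
  induction h with
  | refl => exact ⟨0, fun _ => a, rfl, rfl, fun i hi => absurd hi (Nat.not_lt_zero i)⟩
  | tail _ hbc ih =>
    rename_i b c _
    obtain ⟨l, p, h0, hl, hr⟩ := ih
    refine ⟨l + 1, fun k => if k ≤ l then p k else c, by simp [h0], by simp, ?_⟩
    intro i hi
    by_cases h1 : i + 1 ≤ l
    · have h2 : i ≤ l := by omega
      simp only [h1, h2, if_true]
      exact hr i (by omega)
    · have h2 : i = l := by omega
      subst h2
      simp only [le_refl, if_true, h1, if_false, hl]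
      exact hbc

/-- A vertex which is not adjacent to `t` gives a simplicial vertex not adjacent to `t`
(induction hypothesis: Dirac's theorem for smaller sets). -/
theorem simp_far {R : ℕ → ℕ → Bool} {S : Finset ℕ} (h : Cv R S)
    (ih : ∀ T ⊂ S, ∀ Q ⊆ T, Clq (ad R) Q → Q ≠ T → ∃ x ∈ T, x ∉ Q ∧ Simp (ad R) T x)
    {t k : ℕ} (ht : t ∈ S) (hk : k ∈ S) (hkt : k ≠ t) (hkn : ¬ C (ad R) k t) :
    ∃ x ∈ S, x ≠ t ∧ ¬ C (ad R) x t ∧ Simp (ad R) S x := by
  classical
  set N : ℕ → Prop := fun x => x ∈ S ∧ x ≠ t ∧ ¬ C (ad R) x t with hN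
  set K : ℕ → Prop := fun x => Relation.ReflTransGen (fun a b => C (ad R) a b ∧ N b) k x with hK
  have hNk : N k := ⟨hk, hkt, hkn⟩
  have hKN : ∀ x, K x → N x := by
    intro x hx
    induction hx with
    | refl => exact hNk
    | tail _ hbc _ => exact hbc.2
  have hKk : K k := Relation.ReflTransGen.refl
  have hKc : ∀ a b, K a → C (ad R) a b → N b → K b := fun a b ha hab hb => ha.tail ⟨hab, hb⟩
  have hlink : ∀ a, K a → Relation.ReflTransGen (fun x y => C (ad R) x y ∧ K x ∧ K y) k a := by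
    intro a ha
    induction ha with
    | refl => exact Relation.ReflTransGen.refl
    | tail hab hbc ih' => exact ih'.tail ⟨hbc.1, hab, hab.tail hbc⟩
  have hsym : ∀ a b, Relation.ReflTransGen (fun x y => C (ad R) x y ∧ K x ∧ K y) a b →
      Relation.ReflTransGen (fun x y => C (ad R) x y ∧ K x ∧ K y) b a := by
    intro a b hab
    induction hab with
    | refl => exact Relation.ReflTransGen.refl
    | tail _ hbc ih' =>
      exact Relation.ReflTransGen.head ⟨hbc.1.symm, hbc.2.2, hbc.2.1⟩ ih'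
  have hclq : ∀ u v a b, u ∈ S → v ∈ S → C (ad R) u t → C (ad R) v t → u ≠ v → K a → K b →
      C (ad R) u a → C (ad R) v b → C (ad R) u v := by
    intro u v a b hu hv hut hvt huv ha hb hua hvb
    obtain ⟨l, p, h0, hl, hr⟩ := chain_of ((hsym _ _ (hlink a ha)).trans (hlink b hb))
    have hpK : ∀ i ≤ l, K (p i) := by
      intro i hi
      rcases Nat.lt_or_ge i l with h1 | h1
      · exact (hr i h1).2.1
      · have : i = l := by omega
        rw [this, hl]
        exact hb
    refine sep_pair h (K := K) (l := l + 2) ht hu hv hut hvt huv (fun x hx => hKN x hx) ?_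
    refine ⟨fun i => if i = 0 then u else if i ≤ l + 1 then p (i - 1) else v, by simp, by simp,
      ?_, ?_⟩
    · intro i hi
      rcases Nat.eq_zero_or_pos i with e | e
      · subst e
        simp only [if_true, zero_add]
        have : (1 : ℕ) ≤ l + 1 := by omega
        simp only [one_ne_zero, if_false, this, if_true, Nat.sub_self, h0]
        exact hua
      · rcases Nat.lt_or_ge i (l + 1) with e' | e'
        · have e1 : i ≠ 0 := by omega
          have e2 : i ≤ l + 1 := by omega
          have e3 : i + 1 ≠ 0 := by omega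
          have e4 : i + 1 ≤ l + 1 := by omega
          simp only [e1, e2, e3, e4, if_true, if_false]
          have e5 : i + 1 - 1 = i - 1 + 1 := by omega
          rw [e5]
          exact (hr (i - 1) (by omega)).1
        · have e1 : i ≠ 0 := by omega
          have e2 : i ≤ l + 1 := by omega
          have e3 : i + 1 ≠ 0 := by omega
          have e4 : ¬ i + 1 ≤ l + 1 := by omega
          simp only [e1, e2, e3, e4, if_true, if_false]
          have e5 : i - 1 = l := by omega
          rw [e5, hl]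
          exact hvb.symm
    · intro i hi1 hi2
      have e1 : i ≠ 0 := by omega
      have e2 : i ≤ l + 1 := by omega
      simp only [e1, e2, if_true, if_false]
      exact hpK _ (by omega)
  -- the smaller set
  set T2 := S.filter fun v => v ≠ t ∧ (K v ∨ (C (ad R) v t ∧ ∃ a, K a ∧ C (ad R) v a)) with hT2
  have hT2S : T2 ⊂ S := by
    rw [ssubset_iff_of_subset (filter_subset _ _)]
    exact ⟨t, ht, fun h' => (mem_filter.1 h').2.1 rfl⟩
  have hd : T2.filter (fun v => C (ad R) v t) ≠ T2 := by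
    intro h'
    have : k ∈ T2 := by
      rw [hT2, mem_filter]
      exact ⟨hk, hkt, Or.inl hKk⟩
    rw [← h', mem_filter] at this
    exact hkn this.2
  obtain ⟨x, hx, hxd, hs⟩ := ih T2 hT2S (T2.filter fun v => C (ad R) v t) (filter_subset _ _) (by
    intro q hq q' hq' hqq
    rw [mem_filter, hT2, mem_filter] at hq hq'
    obtain ⟨⟨h1, h2, h3⟩, h4⟩ := hq
    obtain ⟨⟨h1', h2', h3'⟩, h4'⟩ := hq'
    rcases h3 with h3 | ⟨_, a, ha, hqa⟩
    · exact absurd h4 (hKN _ h3).2.2
    rcases h3' with h3' | ⟨_, b, hb, hqb⟩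
    · exact absurd h4' (hKN _ h3').2.2
    exact hclq q q' a b h1 h1' h4 h4' hqq ha hb hqa hqb) hd
  have hxS := hT2S.1 hx
  have hxt := (mem_filter.1 hx).2.1
  have hxn : ¬ C (ad R) x t := fun h' => hxd (mem_filter.2 ⟨hx, h'⟩)
  have hxK : K x := by
    rcases (mem_filter.1 hx).2.2 with h' | ⟨h', _⟩
    · exact h'
    · exact absurd h' hxn
  refine ⟨x, hxS, hxt, hxn, ?_⟩
  have hin : ∀ u ∈ S, C (ad R) u x → u ∈ T2 := by
    intro u hu hux
    rw [hT2, mem_filter]
    have hut : u ≠ t := by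
      rintro rfl
      exact hxn hux.symm
    refine ⟨hu, hut, ?_⟩
    by_cases h' : C (ad R) u t
    · exact Or.inr ⟨h', x, hxK, hux⟩
    · exact Or.inl (hKc x u hxK hux.symm ⟨hu, hut, h'⟩)
  intro u hu w hw hux hwx huw
  exact hs u (hin u hu hux) w (hin w hw hwx) hux hwx huw

/-- **Dirac's theorem** for these graphs. -/
theorem dirac {R : ℕ → ℕ → Bool} : ∀ (n : ℕ) (S : Finset ℕ), S.card = n → Cv R S → ∀ Q ⊆ S,
    Clq (ad R) Q → Q ≠ S → ∃ x ∈ S, x ∉ Q ∧ Simp (ad R) S x := by
  intro n
  induction n using Nat.strong_induction_on with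
  | _ n ihn =>
  intro S hS hcv Q hQ hQc hQS
  have ih : ∀ T ⊂ S, ∀ Q ⊆ T, Clq (ad R) Q → Q ≠ T → ∃ x ∈ T, x ∉ Q ∧ Simp (ad R) T x := by
    intro T hT Q hQ hQc hQT
    exact ihn T.card (hS ▸ card_lt_card hT) T rfl (hcv.mono hT.1) Q hQ hQc hQT
  by_cases h1 : ∃ t ∈ S, (Q = ∅ ∨ t ∈ Q) ∧ ∃ k ∈ S, k ≠ t ∧ ¬ C (ad R) k t
  · obtain ⟨t, ht, htQ, k, hk, hkt, hkn⟩ := h1
    obtain ⟨x, hx, hxt, hxn, hs⟩ := simp_far hcv ih ht hk hkt hkn
    refine ⟨x, hx, ?_, hs⟩
    rcases htQ with h2 | h2
    · rw [h2]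
      exact notMem_empty x
    · exact fun h3 => hxn (hQc x h3 t h2 hxt)
  · push Not at h1
    by_cases h2 : Q = ∅
    · obtain ⟨x, hx⟩ : S.Nonempty := by
        rw [nonempty_iff_ne_empty]
        intro h3
        exact hQS (h2.trans h3.symm)
      refine ⟨x, hx, by rw [h2]; exact notMem_empty x, ?_⟩
      intro u hu w hw _ _ huw
      exact h1 w hw (Or.inl h2) u hu huw
    · obtain ⟨q, hq⟩ := nonempty_iff_ne_empty.2 h2
      have hsub : S \ Q ⊂ S := by
        rw [ssubset_iff_of_subset sdiff_subset]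
        exact ⟨q, hQ hq, fun h' => (mem_sdiff.1 h').2 hq⟩
      obtain ⟨x, hx, _, hs⟩ := ih (S \ Q) hsub ∅ (empty_subset _) (by
        intro u hu
        exact absurd hu (notMem_empty u)) (by
        intro h3
        apply hQS
        apply Subset.antisymm hQ
        rw [← sdiff_eq_empty_iff_subset]
        exact h3.symm)
      rw [mem_sdiff] at hx
      refine ⟨x, hx.1, hx.2, ?_⟩
      intro u hu w hw hux hwx huw
      by_cases h3 : w ∈ Q
      · exact h1 w hw (Or.inr h3) u hu huw
      · by_cases h4 : u ∈ Q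
        · exact (h1 u hu (Or.inr h4) w hw huw.symm).symm
        · exact hs u (mem_sdiff.2 ⟨hu, h4⟩) w (mem_sdiff.2 ⟨hw, h3⟩) hux hwx huw

/-- There is an elimination order with a given last vertex. -/
theorem exists_last {R : ℕ → ℕ → Bool} : ∀ (n : ℕ) (T : Finset ℕ), T.card = n + 1 → Cv R T →
    ∀ t ∈ T, ∃ σ : ℕ → ℕ, Peo (ad R) σ T ∧ ∀ v ∈ T, v ≠ t → σ v < σ t := by
  intro n
  induction n with
  | zero =>
    intro T hT _ t ht
    obtain ⟨x, rfl⟩ := card_eq_one.1 hT
    rw [mem_singleton] at ht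
    subst ht
    refine ⟨fun v => v, ⟨fun u _ v _ h => h, ?_⟩, ?_⟩
    · intro v hv u hu w hw h1
      rw [mem_singleton] at hv hu
      exact absurd (hu.trans hv.symm) h1.ne
    · intro v hv hvt
      rw [mem_singleton] at hv
      exact absurd hv hvt
  | succ n ih =>
    intro T hT hcov t ht
    obtain ⟨x, hx, hxt, hs⟩ := dirac (n + 1 + 1) T hT hcov {t} (singleton_subset_iff.2 ht) (by
      intro u hu w hw huw
      rw [mem_singleton] at hu hw
      exact absurd (hu.trans hw.symm) huw) (by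
      intro h
      rw [← h, card_singleton] at hT
      omega)
    rw [mem_singleton] at hxt
    obtain ⟨σ, hσ, hσt⟩ := ih (T.erase x) (by rw [card_erase_of_mem hx]; omega)
      (hcov.mono (erase_subset _ _)) t (mem_erase.2 ⟨Ne.symm hxt, ht⟩)
    refine ⟨fun v => if v = x then 0 else σ v + 1, ⟨?_, ?_⟩, ?_⟩
    · intro u hu v hv huv
      by_cases h1 : u = x
      · by_cases h2 : v = x
        · rw [h1, h2]
        · simp [h1, h2] at huv
      · by_cases h2 : v = x
        · simp [h1, h2] at huv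
        · simp only [h1, h2, if_false] at huv
          exact hσ.inj u (mem_erase.2 ⟨h1, hu⟩) v (mem_erase.2 ⟨h2, hv⟩) (by omega)
    · intro v hv u hu w hw hu' hw' h1 h2 huw
      by_cases hvx : v = x
      · rw [hvx] at hu' hw'
        exact hs u hu w hw hu' hw' huw
      · have hux : u ≠ x := by
          intro h
          simp [hvx, h] at h1
        have hwx : w ≠ x := by
          intro h
          simp [hvx, h] at h2
        simp only [hvx, hux, hwx, if_false] at h1 h2
        exact hσ.clq v (mem_erase.2 ⟨hvx, hv⟩) u (mem_erase.2 ⟨hux, hu⟩) w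
          (mem_erase.2 ⟨hwx, hw⟩) hu' hw' (by omega) (by omega) huw
    · intro v hv hvt
      by_cases hvx : v = x
      · simp [hvx, Ne.symm hxt]
      · simp only [hvx, Ne.symm hxt, if_false]
        have := hσt v (mem_erase.2 ⟨hvx, hv⟩) hvt
        omega

end Pool.Agent.N439.OD
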