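import Pool.Agent.N439.OD.Val

/-!
# Removing one vertex

The gain of the deficits when one vertex, the last one of an elimination order, is removed.
-/

set_option autoImplicit false
open Finset

namespace Pool.Agent.N439.OD
open Pool.Agent.TH173 Pool.Agent.TH173.TO

variable {g : ℕ → ℕ → Bool} {R : ℕ → ℕ → Bool} {S : Finset ℕ} {τ : ℕ → ℕ} {j : ℕ}

/-- the deficit of the lists of the out-neighbours -/
def da (R : ℕ → ℕ → Bool) (S : Finset ℕ) (j : ℕ) : ℕ := ∑ v ∈ S, (j - (ol R S v).card)

/-- the vertices of `X`, except `y`, which have at most `j` out-neighbours in `S`, not `y` -/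
def aC (R : ℕ → ℕ → Bool) (S X : Finset ℕ) (y j : ℕ) : ℕ :=
  ((X.erase y).filter fun v => R v y = false ∧ (ol R S v).card ≤ j).card

/-- the vertices of `S`, except `y`, with at most `j` later neighbours, not `y` -/
def bC (g : ℕ → ℕ → Bool) (τ : ℕ → ℕ) (S : Finset ℕ) (y j : ℕ) : ℕ :=
  ((S.erase y).filter fun v => ¬ C g v y ∧ (pl g τ S v).card ≤ j).card

/-- the vertices of `K`, except `y`, which are adjacent to `y` -/
def cK (g : ℕ → ℕ → Bool) (K : Finset ℕ) (y : ℕ) : ℕ :=
  ((K.erase y).filter fun v => ¬ C g v y).card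

theorem gainA {x : ℕ} (hx : x ∈ S) (j : ℕ) :
    da R (S.erase x) j + (j + 1 - (ol R S x).card) + aC R S S x j = da R S (j + 1) := by
  unfold da aC
  rw [← sum_erase_add S _ hx, card_filter, add_right_comm, ← sum_add_distrib]
  congr 1
  apply sum_congr rfl
  intro v _
  have e : ol R (S.erase x) v = (ol R S v).erase x := by
    ext u
    rw [mem_ol, mem_erase, mem_erase, mem_ol]
    tauto
  rw [e]
  by_cases h : R v x = true
  · have h1 : x ∈ ol R S v := mem_ol.2 ⟨hx, h⟩
    have h2 := card_erase_add_one h1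
    simp only [h, Bool.true_eq_false, false_and, if_false]
    omega
  · rw [Bool.not_eq_true] at h
    rw [erase_eq_of_notMem (by rw [mem_ol, h]; simp)]
    simp only [h, true_and]
    split_ifs <;> omega

theorem gainB {x : ℕ} (hx : x ∈ S) (hlast : ∀ v ∈ S, v ≠ x → τ v < τ x) (j : ℕ) :
    TO.val g τ (S.erase x) j + (j + 1) + bC g τ S x j = TO.val g τ S (j + 1) := by
  unfold TO.val bC
  have h0 : pl g τ S x = ∅ := by
    rw [eq_empty_iff_forall_notMem]
    intro u hu
    rw [mem_pl] at hu
    have := hlast u hu.1 hu.2.1.ne.symm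
    omega
  rw [← sum_erase_add S _ hx, card_filter, add_right_comm, ← sum_add_distrib, h0, card_empty,
    Nat.sub_zero]
  congr 1
  apply sum_congr rfl
  intro v hv
  have e : pl g τ (S.erase x) v = (pl g τ S v).erase x := by
    ext u
    rw [mem_pl, mem_erase, mem_erase, mem_pl]
    tauto
  rw [e]
  by_cases h : C g v x
  · have h1 : x ∈ pl g τ S v :=
      mem_pl.2 ⟨hx, h, hlast v (mem_of_mem_erase hv) (ne_of_mem_erase hv)⟩
    have h2 := card_erase_add_one h1
    simp only [h, not_true_eq_false, false_and, if_false]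
    omega
  · rw [erase_eq_of_notMem (by
      intro h'
      exact h (mem_pl.1 h').2.1)]
    simp only [h, not_false_eq_true, true_and]
    split_ifs <;> omega

theorem aC_mono {X X' : Finset ℕ} {y : ℕ} (h : X' ⊆ X) : aC R S X' y j ≤ aC R S X y j := by
  unfold aC
  apply card_le_card
  intro v hv
  rw [mem_filter, mem_erase] at hv ⊢
  exact ⟨⟨hv.1.1, h hv.1.2⟩, hv.2⟩

theorem aC_succ {X X' : Finset ℕ} {y v : ℕ} (h : X' ⊆ X.erase v) (hv : v ∈ X) (hvy : v ≠ y)
    (hr : R v y = false) (hc : (ol R S v).card ≤ j) : aC R S X' y j + 1 ≤ aC R S X y j := by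
  unfold aC
  rw [← card_insert_of_notMem (a := v)]
  · apply card_le_card
    intro u hu
    rw [mem_insert, mem_filter, mem_erase] at hu
    rw [mem_filter, mem_erase]
    rcases hu with rfl | hu
    · exact ⟨⟨hvy, hv⟩, hr, hc⟩
    · exact ⟨⟨hu.1.1, mem_of_mem_erase (h hu.1.2)⟩, hu.2⟩
  · intro h'
    rw [mem_filter, mem_erase] at h'
    exact notMem_erase v X (h h'.1.2)

theorem cK_mono {K K' : Finset ℕ} {y : ℕ} (h : K' ⊆ K) : cK g K' y ≤ cK g K y := by
  unfold cK
  apply card_le_card
  intro v hv
  rw [mem_filter, mem_erase] at hv ⊢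
  exact ⟨⟨hv.1.1, h hv.1.2⟩, hv.2⟩

theorem cK_succ {K : Finset ℕ} {y v : ℕ} (hv : v ∈ K) (hvy : v ≠ y) (hc : ¬ C g v y) :
    cK g (K.erase v) y + 1 ≤ cK g K y := by
  unfold cK
  rw [← card_insert_of_notMem (a := v)]
  · apply card_le_card
    intro u hu
    rw [mem_insert, mem_filter, mem_erase] at hu
    rw [mem_filter, mem_erase]
    rcases hu with rfl | hu
    · exact ⟨⟨hvy, hv⟩, hc⟩
    · exact ⟨⟨hu.1.1, mem_of_mem_erase hu.1.2⟩, hu.2⟩
  · intro h'
    rw [mem_filter, mem_erase] at h'
    exact notMem_erase v K h'.1.2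

/-- a sink of a smaller set -/
theorem sink_card {S' : Finset ℕ} {v : ℕ} (hv : v ∈ eA R S') :
    (ol R S v).card ≤ (S \ S').card := by
  rw [mem_eA] at hv
  apply card_le_card
  intro u hu
  rw [mem_ol] at hu
  rw [mem_sdiff]
  refine ⟨hu.1, fun h => ?_⟩
  have : u ∈ ol R S' v := mem_ol.2 ⟨h, hu.2⟩
  rw [hv.2] at this
  simp at this

theorem sink_false {S' : Finset ℕ} {v y : ℕ} (hv : v ∈ eA R S') (hy : y ∈ S') :
    R v y = false := by
  rw [mem_eA] at hv
  rw [← Bool.not_eq_true]
  intro h
  have : y ∈ ol R S' v := mem_ol.2 ⟨hy, h⟩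
  rw [hv.2] at this
  simp at this

theorem sdiff_erase_card {U : Finset ℕ} {v : ℕ} (hU : U ⊆ S) (hv : v ∈ U) :
    (S \ U.erase v).card = (S \ U).card + 1 := by
  have e : S \ U.erase v = insert v (S \ U) := by
    ext u
    rw [mem_sdiff, mem_erase, mem_insert, mem_sdiff]
    constructor
    · rintro ⟨h1, h2⟩
      by_cases h : u = v
      · exact Or.inl h
      · exact Or.inr ⟨h1, fun h3 => h2 ⟨h, h3⟩⟩
    · rintro (rfl | ⟨h1, h2⟩)
      · exact ⟨hU hv, fun h => h.1 rfl⟩
      · exact ⟨h1, fun h => h2 h.2⟩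
  rw [e, card_insert_of_notMem]
  intro h
  exact (mem_sdiff.1 h).2 hv

/-- The main claim for the case without sinks. -/
theorem claim (h : Cv R S) (hp : Peo (ad R) τ S) {y : ℕ}
    (hlast : ∀ v ∈ S, v ≠ y → τ v < τ y) : ∀ (t : ℕ) (U K : Finset ℕ) (c : ℕ), U ⊆ S → K ⊆ S →
    Disjoint U K → (∀ u ∈ U, ∀ v ∈ K, ¬ C (ad R) u v) → y ∈ K → t ≤ c → c + t ≤ U.card →
    (S \ (U ∪ K)).card + t = j + 1 →
    c + t ≤ cnt (ad R) τ U c + aC R S (U ∪ K) y j + cK (ad R) K y + (j + 1 - (ol R S y).card) := by
  intro t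
  induction t using Nat.strong_induction_on with
  | _ t ih =>
  intro U K c hU hK hd hnc hy htc hUc hW
  have hmin := cnt_min (hp.mono hU) c
  rcases Nat.eq_zero_or_pos t with rfl | ht
  · omega
  have hyU : y ∉ U := fun h' => disjoint_left.1 hd h' hy
  have hUK : U ∪ K ⊆ S := union_subset hU hK
  have hUKc : (U ∪ K).card = U.card + K.card := card_union_of_disjoint hd
  have h3 := three' (h.mono hUK) (hp.mono hUK) (by omega)
  rw [cnt_union hd hnc] at h3
  by_cases hA : ∃ v ∈ eA R (U ∪ K), v ≠ y
  · -- a sink different from `y`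
    obtain ⟨v, hv, hvy⟩ := hA
    have hvS := (mem_eA.1 hv).1
    have hr := sink_false hv (mem_union_right U hy)
    have hc : (ol R S v).card ≤ j := (sink_card hv).trans (by omega)
    rcases mem_union.1 hvS with hvU | hvK
    · have hvK : v ∉ K := fun h' => disjoint_left.1 hd hvU h'
      have e : (U ∪ K).erase v = U.erase v ∪ K := by
        rw [erase_union_distrib, erase_eq_of_notMem hvK]
      obtain ⟨c', rfl⟩ : ∃ c', c = c' + 1 := ⟨c - 1, by omega⟩
      have h4 := ih (t - 1) (by omega) (U.erase v) K c' ((erase_subset _ _).trans hU) hK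
        (disjoint_of_subset_left (erase_subset _ _) hd)
        (fun u hu w hw => hnc u (mem_of_mem_erase hu) w hw) hy (by omega)
        (by rw [card_erase_of_mem hvU]; omega)
        (by rw [← e, sdiff_erase_card hUK hvS]; omega)
      have h5 := cnt_erase (h.mono hU) (hp.mono hU) hvU c'
      have h6 := aC_succ (R := R) (S := S) (j := j) (X' := U.erase v ∪ K) (by rw [e]) hvS hvy hr hc
      omega
    · have hvU : v ∉ U := fun h' => disjoint_left.1 hd h' hvK
      have e : (U ∪ K).erase v = U ∪ K.erase v := by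
        rw [erase_union_distrib, erase_eq_of_notMem hvU]
      have h4 := ih (t - 1) (by omega) U (K.erase v) c hU ((erase_subset _ _).trans hK)
        (disjoint_of_subset_right (erase_subset _ _) hd)
        (fun u hu w hw => hnc u hu w (mem_of_mem_erase hw)) (mem_erase.2 ⟨hvy.symm, hy⟩)
        (by omega) (by omega)
        (by rw [← e, sdiff_erase_card hUK hvS]; omega)
      have h6 := aC_succ (R := R) (S := S) (j := j) (X' := U ∪ K.erase v) (by rw [e]) hvS hvy hr hc
      have h7 := cK_mono (g := ad R) (y := y) (erase_subset v K)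
      omega
  · push Not at hA
    by_cases hyA : y ∈ eA R (U ∪ K)
    · -- `y` is a sink
      have h4 := sink_card (S := S) hyA
      omega
    · have hA0 : eA R (U ∪ K) = ∅ := by
        rw [eq_empty_iff_forall_notMem]
        intro v hv
        exact hyA (hA v hv ▸ hv)
      rw [hA0, card_empty, zero_add] at h3
      by_cases hBK : ∃ v ∈ K, v ≠ y ∧ ¬ C (ad R) v y
      · -- a vertex of `K` which is adjacent to `y`
        obtain ⟨v, hvK, hvy, hvc⟩ := hBK
        have hvU : v ∉ U := fun h' => disjoint_left.1 hd h' hvK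
        have e : (U ∪ K).erase v = U ∪ K.erase v := by
          rw [erase_union_distrib, erase_eq_of_notMem hvU]
        have h4 := ih (t - 1) (by omega) U (K.erase v) c hU ((erase_subset _ _).trans hK)
          (disjoint_of_subset_right (erase_subset _ _) hd)
          (fun u hu w hw => hnc u hu w (mem_of_mem_erase hw)) (mem_erase.2 ⟨hvy.symm, hy⟩)
          (by omega) (by omega)
          (by rw [← e, sdiff_erase_card hUK (mem_union_right U hvK)]; omega)
        have h6 := aC_mono (R := R) (S := S) (j := j) (y := y) (X' := U ∪ K.erase v)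
          (X := U ∪ K) (union_subset_union_right (erase_subset _ _))
        have h7 := cK_succ hvK hvy hvc
        omega
      · push Not at hBK
        have hB1 : cnt (ad R) τ K 1 ≤ 1 := by
          unfold cnt
          rw [card_le_one]
          have hone : ∀ a ∈ K.filter (fun v => (pl (ad R) τ K v).card < 1), a = y := by
            intro a ha
            rw [mem_filter] at ha
            by_contra hay
            have : y ∈ pl (ad R) τ K a :=
              mem_pl.2 ⟨hy, hBK a ha.1 hay, hlast a (hK ha.1) hay⟩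
            have := card_pos.2 ⟨y, this⟩
            omega
          intro a ha b hb
          rw [hone a ha, hone b hb]
        obtain ⟨M0, O0, hs0⟩ := exists_spl _ U rfl (hp.mono hU) (by omega)
        obtain ⟨M, O, hs, hMO⟩ : ∃ M O, Spl (ad R) U M O ∧ O.card ≤ M.card := by
          rcases Nat.le_total O0.card M0.card with h' | h'
          · exact ⟨M0, O0, hs0, h'⟩
          · exact ⟨O0, M0, hs0.symm, h'⟩
        have hM : M ⊆ U := by
          rw [← hs.un]
          exact subset_union_left
        have hO : O ⊆ U := by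
          rw [← hs.un]
          exact subset_union_right
        have hcc := hs.cnt (σ := τ) c
        have hcard := hs.card
        have hM2 := cnt_min (hp.mono (hM.trans hU)) c
        have hO2 := cnt_min (hp.mono (hO.trans hU)) c
        have hO3 := card_pos.2 hs.ne2
        rcases Nat.lt_or_ge O.card t with hlt | hge
        · have e : S \ (M ∪ K) = (S \ (U ∪ K)) ∪ O := by
            ext u
            have hu : u ∈ U ↔ u ∈ M ∨ u ∈ O := by rw [← hs.un, mem_union]
            simp only [mem_sdiff, mem_union]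
            rw [hu]
            constructor
            · rintro ⟨h1, h2⟩
              push Not at h2
              by_cases h' : u ∈ O
              · exact Or.inr h'
              · exact Or.inl ⟨h1, by tauto⟩
            · rintro (⟨h1, h2⟩ | h1)
              · exact ⟨h1, by tauto⟩
              · refine ⟨hU (hO h1), ?_⟩
                rintro (h2 | h2)
                · exact disjoint_left.1 hs.dj h2 h1
                · exact disjoint_left.1 hd (hO h1) h2
          have hdd : Disjoint (S \ (U ∪ K)) O := by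
            rw [disjoint_left]
            intro u h1 h2
            rw [mem_sdiff] at h1
            exact h1.2 (mem_union_left _ (hO h2))
          have h4 := ih (t - O.card) (by omega) M K c (hM.trans hU) hK
            (disjoint_of_subset_left hM hd) (fun u hu w hw => hnc u (hM hu) w hw) hy (by omega)
            (by omega) (by rw [e, card_union_of_disjoint hdd]; omega)
          have h6 := aC_mono (R := R) (S := S) (j := j) (y := y) (X' := M ∪ K)
            (X := U ∪ K) (union_subset_union_left hM)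
          omega
        · omega

/-- the case without sinks -/
theorem nosink (h : Cv R S) (hS : 3 * (j + 1) ≤ S.card) (he : eA R S = ∅) :
    ∃ x ∈ S, ∃ τ : ℕ → ℕ, Peo (ad R) τ S ∧ (∀ v ∈ S, v ≠ x → τ v < τ x) ∧
      2 * (j + 1) ≤ (j + 1 - (ol R S x).card) + aC R S S x j + bC (ad R) τ S x j := by
  obtain ⟨m, hm⟩ : ∃ m, S.card = m + 1 := ⟨S.card - 1, by omega⟩
  obtain ⟨z, hz⟩ : S.Nonempty := by
    rw [← card_pos]
    omega
  obtain ⟨σ, hσ, _⟩ := exists_last m S hm h z hz
  have h3 := three' h hσ (by omega)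
  rw [he, card_empty, zero_add] at h3
  obtain ⟨P, Q, W, ht, hPQ, hQW⟩ := exists_tri hσ h3
  obtain ⟨y, hy⟩ := ht.n3
  have hWS : W ⊆ S := by
    rw [← ht.un]
    exact subset_union_right
  have hPS : P ⊆ S := by
    rw [← ht.un]
    exact subset_union_left.trans subset_union_left
  have hQS : Q ⊆ S := by
    rw [← ht.un]
    exact subset_union_right.trans subset_union_left
  obtain ⟨τ, hτ, hlast⟩ := exists_last m S hm h y (hWS hy)
  refine ⟨y, hWS hy, τ, hτ, hlast, ?_⟩
  have hcard := ht.card
  -- the parts of `bC`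
  have hyP : ∀ v ∈ P, v ≠ y := by
    rintro v hv rfl
    exact disjoint_left.1 ht.d2 hv hy
  have hyQ : ∀ v ∈ Q, v ≠ y := by
    rintro v hv rfl
    exact disjoint_left.1 ht.d3 hv hy
  have hbP : ∀ v ∈ P, pl (ad R) τ S v = pl (ad R) τ P v := by
    intro v hv
    rw [← ht.un, union_assoc, pl_union_left]
    intro u hu
    rcases mem_union.1 hu with h' | h'
    · exact ht.c1 v hv u h'
    · exact ht.c2 v hv u h'
  have hbQ : ∀ v ∈ Q, pl (ad R) τ S v = pl (ad R) τ Q v := by
    intro v hv
    rw [← ht.swap12.un, union_assoc, pl_union_left]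
    intro u hu
    rcases mem_union.1 hu with h' | h'
    · exact ht.swap12.c1 v hv u h'
    · exact ht.swap12.c2 v hv u h'
  have hbW : ∀ v ∈ W, pl (ad R) τ S v = pl (ad R) τ W v := by
    intro v hv
    rw [← ht.un, union_comm, pl_union_left]
    intro u hu hc
    rcases mem_union.1 hu with h' | h'
    · exact ht.c2 u h' v hv hc.symm
    · exact ht.c3 u h' v hv hc.symm
  have hb : cnt (ad R) τ P (j + 1) + cnt (ad R) τ Q (j + 1) +
      ((W.erase y).filter fun v => ¬ C (ad R) v y ∧ (pl (ad R) τ W v).card ≤ j).card ≤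
      bC (ad R) τ S y j := by
    unfold cnt bC
    rw [← card_union_of_disjoint, ← card_union_of_disjoint]
    · apply card_le_card
      intro v hv
      rw [mem_union, mem_union, mem_filter, mem_filter, mem_filter, mem_erase] at hv
      rw [mem_filter, mem_erase]
      rcases hv with (⟨h1, h2⟩ | ⟨h1, h2⟩) | ⟨h1, h2⟩
      · exact ⟨⟨hyP v h1, hPS h1⟩, ht.c2 v h1 y hy, by rw [hbP v h1]; omega⟩
      · exact ⟨⟨hyQ v h1, hQS h1⟩, ht.c3 v h1 y hy, by rw [hbQ v h1]; omega⟩
      · exact ⟨⟨h1.1, hWS h1.2⟩, h2.1, by rw [hbW v h1.2]; exact h2.2⟩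
    · rw [disjoint_left]
      intro v h1 h2
      rw [mem_union, mem_filter, mem_filter] at h1
      rw [mem_filter, mem_erase] at h2
      rcases h1 with h1 | h1
      · exact disjoint_left.1 ht.d2 h1.1 h2.1.2
      · exact disjoint_left.1 ht.d3 h1.1 h2.1.2
    · rw [disjoint_left]
      intro v h1 h2
      rw [mem_filter] at h1 h2
      exact disjoint_left.1 ht.d1 h1.1 h2.1
  have hP2 := cnt_min (hτ.mono hPS) (j + 1)
  have hQ2 := cnt_min (hτ.mono hQS) (j + 1)
  rcases Nat.lt_or_ge Q.card (j + 1) with hQj | hQj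
  · -- the claim
    have hnPW : ∀ u ∈ P, ∀ v ∈ W, ¬ C (ad R) u v := ht.c2
    have hsd : S \ (P ∪ W) = Q := by
      ext u
      rw [mem_sdiff, mem_union, ← ht.un, mem_union, mem_union]
      constructor
      · tauto
      · intro h1
        refine ⟨Or.inl (Or.inr h1), ?_⟩
        rintro (h2 | h2)
        · exact disjoint_left.1 ht.d1 h2 h1
        · exact disjoint_left.1 ht.d3 h1 h2
    have hcl := claim (j := j) h hτ hlast (j + 1 - Q.card) P W (j + 1) hPS hWS ht.d2 hnPW hy
      (by omega) (by omega) (by rw [hsd]; omega)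
    have hWc : cK (ad R) W y ≤
        ((W.erase y).filter fun v => ¬ C (ad R) v y ∧ (pl (ad R) τ W v).card ≤ j).card := by
      unfold cK
      apply card_le_card
      intro v hv
      rw [mem_filter] at hv ⊢
      refine ⟨hv.1, hv.2, ?_⟩
      have := pl_card_lt (g := ad R) (σ := τ) (mem_of_mem_erase hv.1)
      omega
    have haa := aC_mono (R := R) (S := S) (j := j) (y := y) (union_subset hPS hWS)
    omega
  · omega

/-- the case of a sink -/
theorem sinkcase (h : Cv R S) (hp : Peo (ad R) τ S) {x : ℕ} (hx : x ∈ eA R S)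
    (hlast : ∀ v ∈ S, v ≠ x → τ v < τ x) (hS : 3 * (j + 1) ≤ S.card) :
    2 * (j + 1) ≤ (j + 1 - (ol R S x).card) + aC R S S x j + bC (ad R) τ S x j := by
  have hxS := (mem_eA.1 hx).1
  rw [(mem_eA.1 hx).2, card_empty]
  set X := (S.erase x).filter fun v => R v x = false ∧ (ol R S v).card ≤ j with hX
  set Y := (S.erase x).filter fun v => ¬ C (ad R) v x ∧ (pl (ad R) τ S v).card ≤ j with hY
  have hXa : aC R S S x j = X.card := rfl
  have hYb : bC (ad R) τ S x j = Y.card := rfl
  have hdis : Disjoint X Y := by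
    rw [disjoint_left]
    intro v h1 h2
    rw [hX, mem_filter, mem_erase] at h1
    rw [hY, mem_filter] at h2
    apply h2.2.1
    rw [C_iff]
    exact ⟨h1.1.1, h1.2.1, sink_false hx h1.1.2⟩
  rw [hXa, hYb]
  by_contra hcon
  have hc : (X ∪ Y).card ≤ j := by
    rw [card_union_of_disjoint hdis]
    omega
  have hXY : X ∪ Y ⊆ S := by
    apply union_subset
    · exact (filter_subset _ _).trans (erase_subset _ _)
    · exact (filter_subset _ _).trans (erase_subset _ _)
  set S' := S \ (X ∪ Y) with hS'
  have hS'S : S' ⊆ S := sdiff_subset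
  have hS'c : S'.card = S.card - (X ∪ Y).card := card_sdiff_of_subset hXY
  have hsd : S \ S' = X ∪ Y := by
    rw [hS', Finset.sdiff_sdiff_eq_self hXY]
  have hxS' : x ∈ S' := by
    rw [hS', mem_sdiff, mem_union]
    refine ⟨hxS, ?_⟩
    rintro (h' | h')
    · rw [hX, mem_filter, mem_erase] at h'
      exact h'.1.1 rfl
    · rw [hY, mem_filter, mem_erase] at h'
      exact h'.1.1 rfl
  have h3 := three' (h.mono hS'S) (hp.mono hS'S) (by omega)
  -- no sink of `S'` except `x`
  have hA : eA R S' ⊆ {x} := by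
    intro v hv
    rw [mem_singleton]
    by_contra hvx
    have h1 := sink_card (S := S) hv
    rw [hsd] at h1
    have h2 := sink_false hv hxS'
    have h4 := (mem_eA.1 hv).1
    have h5 : v ∈ X := by
      rw [hX, mem_filter, mem_erase]
      exact ⟨⟨hvx, hS'S h4⟩, h2, h1.trans hc⟩
    rw [hS', mem_sdiff] at h4
    exact h4.2 (mem_union_left _ h5)
  have hB : (S'.filter fun v => (pl (ad R) τ S' v).card < 1) ⊆ {x} := by
    intro v hv
    rw [mem_singleton]
    by_contra hvx
    rw [mem_filter, Nat.lt_one_iff, card_eq_zero] at hv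
    have h2 : ¬ C (ad R) v x := by
      intro h'
      have : x ∈ pl (ad R) τ S' v := mem_pl.2 ⟨hxS', h', hlast v (hS'S hv.1) hvx⟩
      rw [hv.2] at this
      simp at this
    have h1 : (pl (ad R) τ S v).card ≤ (X ∪ Y).card := by
      apply card_le_card
      intro u hu
      rw [← hsd, mem_sdiff]
      rw [mem_pl] at hu
      refine ⟨hu.1, fun h' => ?_⟩
      have : u ∈ pl (ad R) τ S' v := mem_pl.2 ⟨h', hu.2⟩
      rw [hv.2] at this
      simp at this
    have h5 : v ∈ Y := by
      rw [hY, mem_filter, mem_erase]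
      exact ⟨⟨hvx, hS'S hv.1⟩, h2, h1.trans hc⟩
    have h4 := hv.1
    rw [hS', mem_sdiff] at h4
    exact h4.2 (mem_union_right _ h5)
  have h4 := card_le_card hA
  have h5 := card_le_card hB
  rw [card_singleton] at h4 h5
  unfold cnt at h3
  omega

/-- **The deficits.** -/
theorem deficit : ∀ (j : ℕ) (S : Finset ℕ) (σ : ℕ → ℕ), Cv R S → Peo (ad R) σ S →
    3 * j ≤ S.card → 3 * (j + 1).choose 2 ≤ da R S j + TO.val (ad R) σ S j := by
  intro j
  induction j with
  | zero => intro S σ _ _ _; simp
  | succ j ih =>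
    intro S σ h hσ hS
    have hch : (j + 1 + 1).choose 2 = (j + 1) + (j + 1).choose 2 := by
      rw [Nat.choose_succ_succ' (j + 1) 1, Nat.choose_one_right]
    obtain ⟨x, hx, τ, hτ, hlast, hg⟩ : ∃ x ∈ S, ∃ τ : ℕ → ℕ, Peo (ad R) τ S ∧
        (∀ v ∈ S, v ≠ x → τ v < τ x) ∧
        2 * (j + 1) ≤ (j + 1 - (ol R S x).card) + aC R S S x j + bC (ad R) τ S x j := by
      by_cases he : eA R S = ∅
      · exact nosink h hS he
      · obtain ⟨x, hx⟩ := nonempty_iff_ne_empty.2 he
        obtain ⟨m, hm⟩ : ∃ m, S.card = m + 1 := ⟨S.card - 1, by omega⟩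
        obtain ⟨τ, hτ, hlast⟩ := exists_last m S hm h x (mem_eA.1 hx).1
        exact ⟨x, (mem_eA.1 hx).1, τ, hτ, hlast, sinkcase h hτ hx hlast hS⟩
    rw [val_unique _ S σ τ rfl hσ hτ]
    have h1 := gainA (R := R) hx j
    have h2 := gainB (g := ad R) hx hlast j
    have h3 := ih (S.erase x) τ (h.mono (erase_subset _ _)) (hτ.mono (erase_subset _ _)) (by
      rw [card_erase_of_mem hx]
      omega)
    rw [hch]
    omega

end Pool.Agent.N439.OD
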