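import Pool.Agent.N439.OD.Gain
import Pool.Agent.TH173.TO.Main62

/-!
# The exact Turán bound

If every four vertices of an oriented graph contain three pairwise non-adjacent vertices or a
vertex which dominates two others, then the number of triples of these two kinds is at least the
Turán number.
-/

set_option autoImplicit false
open Finset

namespace Pool.Agent.N439.OD
open Pool.Agent.TH173 Pool.Agent.TH173.TO Pool.Agent.TH173.OE

variable {g : ℕ → ℕ → Bool} {R : ℕ → ℕ → Bool}

/-- The lists have together one element for each pair. -/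
theorem lists_sum78 (hori : ∀ x y, R x y = true → R y x = false) (n : ℕ) (σ : ℕ → ℕ)
    (hσ : ∀ u ∈ range n, ∀ v ∈ range n, σ u = σ v → u = v) :
    ∑ v ∈ range n, ((ol R (range n) v).card + (pl (ad R) σ (range n) v).card) = n.choose 2 := by
  have hirr : ∀ x, R x x = false := by
    intro x
    by_contra hx
    rw [Bool.not_eq_false] at hx
    rw [hori x x hx] at hx
    exact Bool.noConfusion hx
  set f : ℕ → ℕ → ℕ := fun v u => (if R v u = true then 1 else 0) +
    (if C (ad R) v u ∧ σ v < σ u then 1 else 0) with hf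
  have h1 : ∀ v, (ol R (range n) v).card + (pl (ad R) σ (range n) v).card =
      ∑ u ∈ range n, f v u := by
    intro v
    rw [hf, sum_add_distrib]
    congr 1
    · exact card_filter _ _
    · exact card_filter _ _
  simp only [h1]
  have h2 : ∀ v ∈ range n, ∀ u ∈ range n, f v u + f u v = if u = v then 0 else 1 := by
    intro v hv u hu
    by_cases huv : u = v
    · subst huv
      have : ¬ C (ad R) u u := fun h => h.ne rfl
      simp [hf, hirr, this]
    · rw [if_neg huv]
      have hne : σ v ≠ σ u := fun h => huv (hσ u hu v hv h.symm)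
      have hCs : C (ad R) u v ↔ C (ad R) v u := ⟨C.symm, C.symm⟩
      simp only [hf, hCs]
      by_cases a1 : R v u = true
      · have a2 := hori v u a1
        have a3 : ¬ C (ad R) v u := by
          rw [C_iff, a1]
          simp
        simp [a1, a2, a3]
      · by_cases a2 : R u v = true
        · have a3 : ¬ C (ad R) v u := by
            rw [C_iff, a2]
            simp
          simp [a1, a2, a3]
        · have a3 : C (ad R) v u := by
            rw [C_iff]
            exact ⟨fun h => huv h.symm, by simpa using a1, by simpa using a2⟩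
          rcases lt_or_gt_of_ne hne with h | h
          · simp [a1, a2, a3, h, h.not_gt]
          · simp [a1, a2, a3, h, h.not_gt]
  have h3 : (∑ v ∈ range n, ∑ u ∈ range n, f v u) + ∑ v ∈ range n, ∑ u ∈ range n, f v u =
      n * (n - 1) := by
    nth_rw 2 [sum_comm]
    rw [← sum_add_distrib]
    have h4 : ∀ v ∈ range n, (∑ u ∈ range n, f v u) + ∑ u ∈ range n, f u v = n - 1 := by
      intro v hv
      rw [← sum_add_distrib, sum_congr rfl (h2 v hv)]
      have : ∀ u ∈ range n, (if u = v then 0 else 1) = if u ≠ v then 1 else 0 := by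
        intro u _
        by_cases h : u = v <;> simp [h]
      rw [sum_congr rfl this, ← card_filter, filter_ne', card_erase_of_mem hv, card_range]
    rw [sum_congr rfl h4, sum_const, card_range, smul_eq_mul]
  rw [Nat.choose_two_right]
  omega

/-- The triples which consist of a vertex and a pair of its list. -/
def tr (L : ℕ → Finset ℕ) (n : ℕ) : Finset (Finset ℕ) :=
  ((range n).sigma fun v => (L v).powersetCard 2).image fun p => insert p.1 p.2

theorem mem_tr {L : ℕ → Finset ℕ} {n : ℕ} {e : Finset ℕ} :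
    e ∈ tr L n ↔ ∃ v x y, v < n ∧ x ∈ L v ∧ y ∈ L v ∧ x ≠ y ∧ e = {v, x, y} := by
  unfold tr
  rw [mem_image]
  constructor
  · rintro ⟨⟨v, q⟩, hp, rfl⟩
    rw [mem_sigma, mem_powersetCard, mem_range] at hp
    obtain ⟨x, y, hxy, hq⟩ := card_eq_two.1 hp.2.2
    simp only at hq hp
    subst hq
    exact ⟨v, x, y, hp.1, hp.2.1 (by simp), hp.2.1 (by simp), hxy, rfl⟩
  · rintro ⟨v, x, y, hv, hx, hy, hxy, rfl⟩
    refine ⟨⟨v, {x, y}⟩, ?_, rfl⟩
    rw [mem_sigma, mem_powersetCard, mem_range]
    refine ⟨hv, ?_, card_pair hxy⟩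
    intro u hu
    simp only [mem_insert, mem_singleton] at hu
    rcases hu with rfl | rfl
    · exact hx
    · exact hy

theorem card_tr {L : ℕ → Finset ℕ} {n : ℕ} (has : ∀ v x, x ∈ L v → v ∉ L x) :
    (tr L n).card = ∑ v ∈ range n, (L v).card.choose 2 := by
  unfold tr
  rw [card_image_of_injOn, card_sigma]
  · simp only [card_powersetCard]
  · rintro ⟨v, q⟩ hp ⟨v', q'⟩ hp' he
    rw [coe_sigma, Set.mem_sigma_iff, mem_coe, mem_coe, mem_powersetCard] at hp hp'
    simp only at he hp hp'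
    have hv : v ∉ q := fun h => has v v (hp.2.1 h) (hp.2.1 h)
    have hv' : v' ∉ q' := fun h => has v' v' (hp'.2.1 h) (hp'.2.1 h)
    have hvv : v = v' := by
      by_contra hne
      have m1 : v ∈ insert v' q' := by rw [← he]; exact mem_insert_self _ _
      have m2 : v' ∈ insert v q := by rw [he]; exact mem_insert_self _ _
      rw [mem_insert] at m1 m2
      rcases m1 with h | h
      · exact hne h
      · rcases m2 with h' | h'
        · exact hne h'.symm
        · exact has v v' (hp.2.1 h') (hp'.2.1 h)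
    subst hvv
    have : q = q' := by
      rw [← erase_insert hv, he, erase_insert hv']
    rw [this]

/-- The bound for 3-graphs on the vertices `0, ..., n - 1`. -/
theorem core78 (n : ℕ) (H : Finset (Finset ℕ)) (hH : H ⊆ (range n).powersetCard 3)
    (hori : ∀ x y, R x y = true → R y x = false)
    (hout : ∀ v x y, v < n → x < n → y < n → x ≠ y → R v x = true → R v y = true →
      ({v, x, y} : Finset ℕ) ∉ H)
    (hind : ∀ v x y, v < n → x < n → y < n → C (ad R) v x → C (ad R) v y → C (ad R) x y →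
      ({v, x, y} : Finset ℕ) ∉ H)
    (hcov : ∀ Q ⊆ range n, Q.card = 4 →
      (∃ v ∈ Q, ∃ x ∈ Q, ∃ y ∈ Q, x ≠ y ∧ R v x = true ∧ R v y = true) ∨
      ∃ x ∈ Q, ∃ y ∈ Q, ∃ z ∈ Q, C (ad R) x y ∧ C (ad R) x z ∧ C (ad R) y z) :
    H.card + turan n ≤ n.choose 3 := by
  rcases Nat.eq_zero_or_pos n with rfl | hn
  · have h0 : H.card ≤ ((range 0).powersetCard 3).card := card_le_card hH
    rw [card_powersetCard, card_range] at h0
    have : turan 0 = 0 := by decide
    rw [this]
    exact h0
  have hcv : Cv R (range n) := by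
    refine ⟨hori, ?_⟩
    intro Q hQ hQ4
    rcases hcov Q hQ hQ4 with ⟨v, hv, x, hx, y, hy, hxy, h1, h2⟩ | h
    · exact Or.inl ⟨v, hv, one_lt_card.2 ⟨x, mem_ol.2 ⟨hx, h1⟩, y, mem_ol.2 ⟨hy, h2⟩, hxy⟩⟩
    · exact Or.inr h
  obtain ⟨σ, hσ, _⟩ := exists_last (n - 1) (range n) (by rw [card_range]; omega) hcv 0
    (mem_range.2 hn)
  have hc := cost_of_deficit n (fun v => (ol R (range n) v).card)
    (fun v => (pl (ad R) σ (range n) v).card) (lists_sum78 hori n σ hσ.inj) (by
      intro i _ hi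
      have := deficit i (range n) σ hcv hσ (by rw [card_range]; exact hi)
      unfold da TO.val at this
      rw [sum_add_distrib]
      exact this)
  have hasA : ∀ v x, x ∈ ol R (range n) v → v ∉ ol R (range n) x := by
    intro v x h1 h2
    rw [mem_ol] at h1 h2
    rw [hori v x h1.2] at h2
    exact Bool.noConfusion h2.2
  have hasB : ∀ v x, x ∈ pl (ad R) σ (range n) v → v ∉ pl (ad R) σ (range n) x := by
    intro v x h1 h2
    rw [mem_pl] at h1 h2
    omega
  have cA := card_tr (n := n) hasA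
  have cB := card_tr (n := n) hasB
  set TA := tr (ol R (range n)) n with hTA
  set TB := tr (pl (ad R) σ (range n)) n with hTB
  have hmemB : ∀ v x y, v < n → x ∈ pl (ad R) σ (range n) v → y ∈ pl (ad R) σ (range n) v →
      x ≠ y → C (ad R) v x ∧ C (ad R) v y ∧ C (ad R) x y := by
    intro v x y hv hx hy hxy
    rw [mem_pl] at hx hy
    exact ⟨hx.2.1, hy.2.1, hσ.clq v (mem_range.2 hv) x hx.1 y hy.1 hx.2.1.symm hy.2.1.symm
      hx.2.2 hy.2.2 hxy⟩
  have hAB : Disjoint TA TB := by
    rw [disjoint_left]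
    intro e h1 h2
    rw [hTA, mem_tr] at h1
    rw [hTB, mem_tr] at h2
    obtain ⟨v, x, y, hv, hx, hy, hxy, rfl⟩ := h1
    obtain ⟨v', x', y', hv', hx', hy', hxy', he⟩ := h2
    obtain ⟨c1, c2, c3⟩ := hmemB v' x' y' hv' hx' hy' hxy'
    rw [mem_ol] at hx hy
    have hvx : v ≠ x := by
      rintro rfl
      have := hori v v hx.2
      rw [hx.2] at this
      exact Bool.noConfusion this
    have hall : ∀ p ∈ ({v', x', y'} : Finset ℕ), ∀ q ∈ ({v', x', y'} : Finset ℕ), p ≠ q →
        C (ad R) p q := by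
      intro p hp q hq hpq
      simp only [mem_insert, mem_singleton] at hp hq
      rcases hp with rfl | rfl | rfl <;> rcases hq with rfl | rfl | rfl <;>
        first
        | exact absurd rfl hpq
        | exact c1
        | exact c2
        | exact c3
        | exact c1.symm
        | exact c2.symm
        | exact c3.symm
    have := hall v (by rw [← he]; simp) x (by rw [← he]; simp) hvx
    rw [C_iff, hx.2] at this
    exact Bool.noConfusion this.2.1
  have hdisj : Disjoint H (TA ∪ TB) := by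
    rw [disjoint_left]
    intro e he h1
    rw [mem_union, hTA, hTB, mem_tr, mem_tr] at h1
    rcases h1 with ⟨v, x, y, hv, hx, hy, hxy, rfl⟩ | ⟨v, x, y, hv, hx, hy, hxy, rfl⟩
    · rw [mem_ol, mem_range] at hx hy
      exact hout v x y hv hx.1 hy.1 hxy hx.2 hy.2 he
    · obtain ⟨c1, c2, c3⟩ := hmemB v x y hv hx hy hxy
      rw [mem_pl, mem_range] at hx hy
      exact hind v x y hv hx.1 hy.1 c1 c2 c3 he
  have hsubT : ∀ (L : ℕ → Finset ℕ), (∀ v, L v ⊆ range n) → (∀ v x, x ∈ L v → v ∉ L x) →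
      tr L n ⊆ (range n).powersetCard 3 := by
    intro L hL has e he
    rw [mem_tr] at he
    obtain ⟨v, x, y, hv, hx, hy, hxy, rfl⟩ := he
    have hvx : v ≠ x := by
      rintro rfl
      exact has v v hx hx
    have hvy : v ≠ y := by
      rintro rfl
      exact has v v hy hy
    rw [mem_powersetCard]
    refine ⟨?_, card_eq_three.2 ⟨v, x, y, hvx, hvy, hxy, rfl⟩⟩
    intro u hu
    simp only [mem_insert, mem_singleton] at hu
    rcases hu with rfl | rfl | rfl
    · exact mem_range.2 hv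
    · exact hL v hx
    · exact hL v hy
  have hsub : H ∪ (TA ∪ TB) ⊆ (range n).powersetCard 3 :=
    union_subset hH (union_subset (hsubT _ (fun _ => ol_sub) hasA) (hsubT _ (fun _ => pl_sub) hasB))
  have := card_le_card hsub
  rw [card_union_of_disjoint hdisj, card_union_of_disjoint hAB, cA, cB, card_powersetCard,
    card_range, ← sum_add_distrib] at this
  omega

open scoped Classical in
/-- **The exact Turán bound** for the triples which span an arc and in which no vertex dominates
the two others. -/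
theorem main78 {n : ℕ} (P : Fin n → Fin n → Prop) (hP : ∀ x y, P x y → ¬ P y x)
    (H : Finset (Finset (Fin n))) (h3 : ∀ e ∈ H, e.card = 3)
    (hK : ∀ S : Finset (Fin n), S.card = 4 → ∃ s ⊆ S, s.card = 3 ∧ s ∉ H)
    (hH : ∀ a b c : Fin n, a ≠ b → a ≠ c → b ≠ c → (({a, b, c} : Finset (Fin n)) ∈ H ↔
      (P a b ∨ P b a ∨ P a c ∨ P c a ∨ P b c ∨ P c b) ∧
        ¬ (P a b ∧ P a c) ∧ ¬ (P b a ∧ P b c) ∧ ¬ (P c a ∧ P c b))) :
    H.card + turan n ≤ n.choose 3 := by
  set R : ℕ → ℕ → Bool := fun x y => decide (∃ (hx : x < n) (hy : y < n), P ⟨x, hx⟩ ⟨y, hy⟩)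
    with hR
  have hRP : ∀ a b : Fin n, R a b = true ↔ P a b := by
    intro a b
    simp [hR]
  have hCP : ∀ a b : Fin n, C (ad R) a b ↔ a ≠ b ∧ ¬ P a b ∧ ¬ P b a := by
    intro a b
    rw [C_iff, ← hRP a b, ← hRP b a, Bool.not_eq_true, Bool.not_eq_true]
    constructor
    · rintro ⟨h1, h2⟩
      exact ⟨fun h => h1 (by rw [h]), h2⟩
    · rintro ⟨h1, h2⟩
      exact ⟨fun h => h1 (Fin.ext h), h2⟩
  set H' : Finset (Finset ℕ) := H.image fun e => e.map Fin.valEmbedding with hH'
  have hc : H'.card = H.card := by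
    apply card_image_of_injective
    intro e e' h
    exact map_injective _ h
  have hmem : ∀ a b c : Fin n, ({(a : ℕ), (b : ℕ), (c : ℕ)} : Finset ℕ) ∈ H' ↔
      ({a, b, c} : Finset (Fin n)) ∈ H := by
    intro a b c
    have e1 : ({(a : ℕ), (b : ℕ), (c : ℕ)} : Finset ℕ) =
        ({a, b, c} : Finset (Fin n)).map Fin.valEmbedding := by
      simp [map_insert]
    rw [hH', e1, mem_image]
    constructor
    · rintro ⟨e, he, hee⟩
      rw [← map_injective _ hee]
      exact he
    · intro h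
      exact ⟨_, h, rfl⟩
  rw [← hc]
  apply core78 (R := R)
  · intro e he
    rw [hH', mem_image] at he
    obtain ⟨e', he', rfl⟩ := he
    rw [mem_powersetCard, card_map]
    refine ⟨?_, h3 e' he'⟩
    intro x hx
    rw [mem_map] at hx
    obtain ⟨y, _, rfl⟩ := hx
    rw [mem_range]
    exact y.2
  · intro x y hxy
    rw [hR] at hxy
    simp only [decide_eq_true_eq] at hxy
    obtain ⟨hx, hy, h⟩ := hxy
    rw [← Bool.not_eq_true]
    intro h'
    exact hP _ _ h ((hRP ⟨y, hy⟩ ⟨x, hx⟩).1 h')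
  · intro v x y hv hx hy hxy h1 h2
    have e1 := (hRP ⟨v, hv⟩ ⟨x, hx⟩).1 h1
    have e2 := (hRP ⟨v, hv⟩ ⟨y, hy⟩).1 h2
    have hxy' : (⟨x, hx⟩ : Fin n) ≠ ⟨y, hy⟩ := by simpa using hxy
    have hvx : (⟨v, hv⟩ : Fin n) ≠ ⟨x, hx⟩ := by
      intro h
      rw [← h] at e1
      exact hP _ _ e1 e1
    have hvy : (⟨v, hv⟩ : Fin n) ≠ ⟨y, hy⟩ := by
      intro h
      rw [← h] at e2
      exact hP _ _ e2 e2
    have := hmem ⟨v, hv⟩ ⟨x, hx⟩ ⟨y, hy⟩
    simp only at this
    rw [this, hH _ _ _ hvx hvy hxy']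
    rintro ⟨_, h, _⟩
    exact h ⟨e1, e2⟩
  · intro v x y hv hx hy c1 c2 c3
    have d1 := (hCP ⟨v, hv⟩ ⟨x, hx⟩).1 c1
    have d2 := (hCP ⟨v, hv⟩ ⟨y, hy⟩).1 c2
    have d3 := (hCP ⟨x, hx⟩ ⟨y, hy⟩).1 c3
    have := hmem ⟨v, hv⟩ ⟨x, hx⟩ ⟨y, hy⟩
    simp only at this
    rw [this, hH _ _ _ d1.1 d2.1 d3.1]
    rintro ⟨h, _⟩
    tauto
  · intro Q hQ hQ4
    set S : Finset (Fin n) := univ.filter fun i : Fin n => (i : ℕ) ∈ Q with hS
    have hSQ : S.map Fin.valEmbedding = Q := by
      ext x
      rw [mem_map]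
      constructor
      · rintro ⟨i, hi, rfl⟩
        rw [hS, mem_filter] at hi
        exact hi.2
      · intro hx
        refine ⟨⟨x, mem_range.1 (hQ hx)⟩, ?_, rfl⟩
        rw [hS, mem_filter]
        exact ⟨mem_univ _, hx⟩
    have hS4 : S.card = 4 := by
      rw [← card_map Fin.valEmbedding, hSQ, hQ4]
    obtain ⟨s, hsS, hs3, hsH⟩ := hK S hS4
    obtain ⟨a, b, c, hab, hac, hbc, rfl⟩ := card_eq_three.1 hs3
    have inQ : ∀ i ∈ S, (i : ℕ) ∈ Q := by
      intro i hi
      rw [hS, mem_filter] at hi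
      exact hi.2
    have ha := inQ a (hsS (by simp))
    have hb := inQ b (hsS (by simp))
    have hc := inQ c (hsS (by simp))
    rw [hH a b c hab hac hbc] at hsH
    by_cases hd : (P a b ∧ P a c) ∨ (P b a ∧ P b c) ∨ (P c a ∧ P c b)
    · left
      rcases hd with ⟨h1, h2⟩ | ⟨h1, h2⟩ | ⟨h1, h2⟩
      · exact ⟨a, ha, b, hb, c, hc, fun h => hbc (Fin.ext h), (hRP _ _).2 h1, (hRP _ _).2 h2⟩
      · exact ⟨b, hb, a, ha, c, hc, fun h => hac (Fin.ext h), (hRP _ _).2 h1, (hRP _ _).2 h2⟩
      · exact ⟨c, hc, a, ha, b, hb, fun h => hab (Fin.ext h), (hRP _ _).2 h1, (hRP _ _).2 h2⟩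
    · right
      refine ⟨a, ha, b, hb, c, hc, (hCP _ _).2 ?_, (hCP _ _).2 ?_, (hCP _ _).2 ?_⟩ <;> tauto

end Pool.Agent.N439.OD
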