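import Mathlib

/-!
# Two families of lists: three empty lists

Every vertex `v` has two lists `A v`, `B v`; each pair of vertices contributes to at most one list.
If in every set of four vertices some list has at least two elements (in the set), then every set
with at least two vertices has at least three empty lists. (No acyclicity is assumed.)
-/

set_option autoImplicit false
open Finset

namespace Pool.Agent.N439.OD

variable {V : Type} [DecidableEq V] {A B : V → Finset V}

/-- the hypotheses -/
structure Sys (A B : V → Finset V) (S : Finset V) : Prop where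
  irA : ∀ x ∈ S, x ∉ A x
  irB : ∀ x ∈ S, x ∉ B x
  one : ∀ x ∈ S, ∀ y ∈ S, x ≠ y → (x ∈ A y → y ∉ A x ∧ x ∉ B y ∧ y ∉ B x) ∧
    (x ∈ B y → y ∉ B x ∧ x ∉ A y ∧ y ∉ A x)
  cov : ∀ Q ⊆ S, Q.card = 4 → ∃ v ∈ Q, 2 ≤ (A v ∩ Q).card ∨ 2 ≤ (B v ∩ Q).card

theorem Sys.mono {S T : Finset V} (h : Sys A B S) (hT : T ⊆ S) : Sys A B T where
  irA := fun x hx => h.irA x (hT hx)
  irB := fun x hx => h.irB x (hT hx)
  one := fun x hx y hy => h.one x (hT hx) y (hT hy)
  cov := fun Q hQ => h.cov Q (hQ.trans hT)

/-- the vertices with an empty list -/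
def emp (L : V → Finset V) (S : Finset V) : Finset V := S.filter fun v => L v ∩ S = ∅

theorem mem_emp {L : V → Finset V} {S : Finset V} {v : V} :
    v ∈ emp L S ↔ v ∈ S ∧ L v ∩ S = ∅ := by
  unfold emp
  rw [mem_filter]

/-- removing a vertex -/
theorem emp_erase {L : V → Finset V} {S : Finset V} (hL : ∀ x ∈ S, x ∉ L x) {x : V} (hx : x ∈ S) :
    (emp L (S.erase x)).card + (if L x ∩ S = ∅ then 1 else 0) =
      (emp L S).card + (S.filter fun v => L v ∩ S = {x}).card := by
  have h1 : emp L (S.erase x) = (emp L S).erase x ∪ S.filter fun v => L v ∩ S = {x} := by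
    ext v
    rw [mem_union, mem_erase, mem_emp, mem_emp, mem_erase, mem_filter]
    constructor
    · rintro ⟨⟨hvx, hv⟩, he⟩
      by_cases h : L v ∩ S = ∅
      · exact Or.inl ⟨hvx, hv, h⟩
      · refine Or.inr ⟨hv, ?_⟩
        apply eq_singleton_iff_nonempty_unique_mem.2
        refine ⟨nonempty_iff_ne_empty.2 h, ?_⟩
        intro y hy
        by_contra hyx
        rw [mem_inter] at hy
        have : y ∈ L v ∩ S.erase x := mem_inter.2 ⟨hy.1, mem_erase.2 ⟨hyx, hy.2⟩⟩
        rw [he] at this
        simp at this
    · rintro (⟨hvx, hv, he⟩ | ⟨hv, he⟩)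
      · refine ⟨⟨hvx, hv⟩, ?_⟩
        rw [← subset_empty, ← he]
        exact inter_subset_inter_left (erase_subset _ _)
      · have hvx : v ≠ x := by
          rintro rfl
          have : v ∈ L v ∩ S := by rw [he]; exact mem_singleton_self v
          exact hL v hv (mem_inter.1 this).1
        refine ⟨⟨hvx, hv⟩, ?_⟩
        rw [eq_empty_iff_forall_notMem]
        intro y hy
        rw [mem_inter, mem_erase] at hy
        have : y ∈ L v ∩ S := mem_inter.2 ⟨hy.1, hy.2.2⟩
        rw [he, mem_singleton] at this
        exact hy.2.1 this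
  have h2 : Disjoint ((emp L S).erase x) (S.filter fun v => L v ∩ S = {x}) := by
    rw [disjoint_left]
    intro v hv hv'
    rw [mem_erase, mem_emp] at hv
    rw [mem_filter, hv.2.2] at hv'
    exact (singleton_ne_empty x) hv'.2.symm
  rw [h1, card_union_of_disjoint h2]
  split_ifs with h
  · rw [card_erase_of_mem (mem_emp.2 ⟨hx, h⟩)]
    have := card_pos.2 ⟨x, mem_emp.2 ⟨hx, h⟩⟩
    omega
  · rw [erase_eq_of_notMem]
    · omega
    · intro h'
      exact h (mem_emp.1 h').2

theorem single_sum (L : V → Finset V) (S : Finset V) :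
    ∑ x ∈ S, (S.filter fun v => L v ∩ S = {x}).card =
      (S.filter fun v => (L v ∩ S).card = 1).card := by
  rw [card_filter]
  have h1 : ∀ v ∈ S, (if (L v ∩ S).card = 1 then 1 else 0) =
      ∑ x ∈ S, if L v ∩ S = {x} then 1 else 0 := by
    intro v _
    split_ifs with h
    · obtain ⟨y, hy⟩ := card_eq_one.1 h
      have hyS : y ∈ S := by
        have : y ∈ L v ∩ S := by rw [hy]; exact mem_singleton_self y
        exact (mem_inter.1 this).2
      rw [sum_eq_single_of_mem y hyS]
      · rw [if_pos hy]
      · intro z _ hz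
        rw [if_neg]
        rw [hy]
        intro h2
        exact hz (singleton_injective h2).symm
    · symm
      apply sum_eq_zero
      intro x _
      rw [if_neg]
      intro h2
      rw [h2, card_singleton] at h
      exact h rfl
  rw [sum_congr rfl h1, sum_comm]
  apply sum_congr rfl
  intro x _
  rw [card_filter]

theorem le_one_card (L : V → Finset V) (S : Finset V) :
    (S.filter fun v => (L v ∩ S).card ≤ 1).card =
      (emp L S).card + (S.filter fun v => (L v ∩ S).card = 1).card := by
  unfold emp
  rw [← card_union_of_disjoint]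
  · congr 1
    ext v
    simp only [mem_union, mem_filter]
    constructor
    · rintro ⟨hv, h⟩
      rcases Nat.lt_or_ge (L v ∩ S).card 1 with h' | h'
      · exact Or.inl ⟨hv, card_eq_zero.1 (by omega)⟩
      · exact Or.inr ⟨hv, by omega⟩
    · rintro (⟨hv, h⟩ | ⟨hv, h⟩)
      · refine ⟨hv, ?_⟩
        rw [h, card_empty]
        omega
      · exact ⟨hv, by omega⟩
  · rw [disjoint_left]
    intro v h1 h2
    rw [mem_filter] at h1 h2
    rw [h1.2, card_empty] at h2
    omega

/-- **Three empty lists.** -/
theorem three : ∀ (k : ℕ) (S : Finset V), S.card = k + 2 → Sys A B S →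
    3 ≤ (emp A S).card + (emp B S).card := by
  intro k
  induction k with
  | zero =>
    intro S hS hsys
    obtain ⟨x, y, hxy, rfl⟩ := card_eq_two.1 (by simpa using hS)
    have hx : x ∈ ({x, y} : Finset V) := by simp
    have hy : y ∈ ({x, y} : Finset V) := by simp
    have hAx := hsys.irA x hx
    have hAy := hsys.irA y hy
    have hBx := hsys.irB x hx
    have hBy := hsys.irB y hy
    have o1 := hsys.one x hx y hy hxy
    have o2 := hsys.one y hy x hx hxy.symm
    have key : ∀ (L : V → Finset V) (v w : V), v ≠ w → v ∉ L v → w ∉ L v →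
        L v ∩ {v, w} = ∅ := by
      intro L v w _ h1 h2
      rw [eq_empty_iff_forall_notMem]
      intro u hu
      simp only [mem_inter, mem_insert, mem_singleton] at hu
      rcases hu with ⟨h3, rfl | rfl⟩
      · exact h1 h3
      · exact h2 h3
    have e1 : ∀ (L : V → Finset V), x ∉ L x → y ∉ L y → y ∉ L x → x ∈ emp L {x, y} := by
      intro L h1 _ h3
      exact mem_emp.2 ⟨hx, key L x y hxy h1 h3⟩
    have e2 : ∀ (L : V → Finset V), x ∉ L x → y ∉ L y → x ∉ L y → y ∈ emp L {x, y} := by
      intro L _ h2 h3
      refine mem_emp.2 ⟨hy, ?_⟩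
      rw [pair_comm]
      exact key L y x hxy.symm h2 h3
    have two : ∀ (L : V → Finset V), x ∈ emp L {x, y} → y ∈ emp L {x, y} →
        2 ≤ (emp L {x, y}).card := fun L h1 h2 => one_lt_card.2 ⟨x, h1, y, h2, hxy⟩
    have one : ∀ (L : V → Finset V) (v : V), v ∈ emp L {x, y} → 1 ≤ (emp L {x, y}).card :=
      fun L v h1 => card_pos.2 ⟨v, h1⟩
    by_cases a1 : y ∈ A x
    · have h := o2.1 a1
      have t1 := two B (e1 B hBx hBy h.2.1) (e2 B hBx hBy h.2.2)
      have t2 := one A y (e2 A hAx hAy h.1)
      omega
    · by_cases a2 : x ∈ A y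
      · have h := o1.1 a2
        have t1 := two B (e1 B hBx hBy h.2.2) (e2 B hBx hBy h.2.1)
        have t2 := one A x (e1 A hAx hAy a1)
        omega
      · have t1 := two A (e1 A hAx hAy a1) (e2 A hAx hAy a2)
        by_cases b1 : y ∈ B x
        · have h := o2.2 b1
          have t2 := one B y (e2 B hBx hBy h.1)
          omega
        · have t2 := one B x (e1 B hBx hBy b1)
          omega
  | succ k ih =>
    intro S hS hsys
    by_contra hcon
    have hce : ∀ x ∈ S, (S.erase x).card = k + 2 := by
      intro x hx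
      rw [card_erase_of_mem hx]
      omega
    obtain ⟨E, hE⟩ : ∃ E, E = (emp A S).card + (emp B S).card := ⟨_, rfl⟩
    rw [← hE] at hcon
    have hx3 : ∀ x ∈ S, 3 + ((if A x ∩ S = ∅ then 1 else 0) + (if B x ∩ S = ∅ then 1 else 0)) ≤
        E + ((S.filter fun v => A v ∩ S = {x}).card + (S.filter fun v => B v ∩ S = {x}).card) := by
      intro x hx
      have h1 := ih (S.erase x) (hce x hx) (hsys.mono (erase_subset x S))
      have h2 := emp_erase hsys.irA hx
      have h3 := emp_erase hsys.irB hx
      omega
    have hsum := sum_le_sum hx3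
    have s1 : ∑ x ∈ S, (3 + ((if A x ∩ S = ∅ then 1 else 0) + (if B x ∩ S = ∅ then 1 else 0))) =
        S.card * 3 + ((emp A S).card + (emp B S).card) := by
      rw [sum_add_distrib, sum_add_distrib, sum_const, smul_eq_mul, ← card_filter, ← card_filter]
      rfl
    have s2 : ∑ x ∈ S, (E + ((S.filter fun v => A v ∩ S = {x}).card +
        (S.filter fun v => B v ∩ S = {x}).card)) =
        S.card * E + ((S.filter fun v => (A v ∩ S).card = 1).card +
          (S.filter fun v => (B v ∩ S).card = 1).card) := by
      rw [sum_add_distrib, sum_add_distrib, sum_const, smul_eq_mul, single_sum, single_sum]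
    rw [s1, s2, ← hE, hS] at hsum
    have hA1 := le_one_card A S
    have hB1 := le_one_card B S
    have hsmall : k + 3 + 4 ≤ (S.filter fun v => (A v ∩ S).card ≤ 1).card +
        (S.filter fun v => (B v ∩ S).card ≤ 1).card := by
      have hE2 : E ≤ 2 := by omega
      have : E = 0 ∨ E = 1 ∨ E = 2 := by omega
      rcases this with h | h | h
      · rw [h] at hsum
        omega
      · rw [h] at hsum
        omega
      · rw [h] at hsum
        omega
    set Z := S.filter fun v => (A v ∩ S).card ≤ 1 ∧ (B v ∩ S).card ≤ 1 with hZ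
    have hup : (S.filter fun v => (A v ∩ S).card ≤ 1).card +
        (S.filter fun v => (B v ∩ S).card ≤ 1).card ≤ S.card + Z.card := by
      rw [← card_union_add_card_inter]
      apply Nat.add_le_add
      · exact card_le_card (union_subset (filter_subset _ _) (filter_subset _ _))
      · apply card_le_card
        intro v hv
        rw [mem_inter, mem_filter, mem_filter] at hv
        rw [hZ, mem_filter]
        exact ⟨hv.1.1, hv.1.2, hv.2.2⟩
    have hZ4 : 4 ≤ Z.card := by omega
    obtain ⟨Q, hQ, hQ4⟩ := exists_subset_card_eq hZ4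
    obtain ⟨v, hv, hv2⟩ := hsys.cov Q (hQ.trans (filter_subset _ _)) hQ4
    have hvZ := (mem_filter.1 (hQ hv)).2
    have hQS : Q ⊆ S := hQ.trans (filter_subset _ _)
    have c1 : (A v ∩ Q).card ≤ (A v ∩ S).card := card_le_card (inter_subset_inter Subset.rfl hQS)
    have c2 : (B v ∩ Q).card ≤ (B v ∩ S).card := card_le_card (inter_subset_inter Subset.rfl hQS)
    omega

end Pool.Agent.N439.OD
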