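import Pool.Agent.N439.OD.Dirac

/-!
# Counting short lists of later neighbours

`cnt g σ T c` is the number of the vertices of `T` with fewer than `c` later neighbours in `T`
(for the elimination order `σ` of the non-adjacency graph).
-/

set_option autoImplicit false
open Finset

namespace Pool.Agent.N439.OD
open Pool.Agent.TH173 Pool.Agent.TH173.TO

variable {g : ℕ → ℕ → Bool} {R : ℕ → ℕ → Bool}

/-- the number of the vertices with fewer than `c` later neighbours -/
def cnt (g : ℕ → ℕ → Bool) (σ : ℕ → ℕ) (T : Finset ℕ) (c : ℕ) : ℕ :=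
  (T.filter fun v => (pl g σ T v).card < c).card

theorem val_succ (σ : ℕ → ℕ) (T : Finset ℕ) (c : ℕ) :
    TO.val g σ T (c + 1) = TO.val g σ T c + cnt g σ T (c + 1) := by
  unfold TO.val cnt
  rw [card_filter, ← sum_add_distrib]
  apply sum_congr rfl
  intro v _
  split_ifs <;> omega

/-- `cnt` does not depend on the elimination order -/
theorem cnt_unique {σ τ : ℕ → ℕ} {T : Finset ℕ} (hσ : Peo g σ T) (hτ : Peo g τ T) (c : ℕ) :
    cnt g σ T c = cnt g τ T c := by
  rcases c with _ | c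
  · unfold cnt
    simp
  · have h1 := val_unique _ T σ τ rfl hσ hτ c
    have h2 := val_unique _ T σ τ rfl hσ hτ (c + 1)
    rw [val_succ, val_succ, h1] at h2
    omega

theorem pl_sub {σ : ℕ → ℕ} {T : Finset ℕ} {v : ℕ} : pl g σ T v ⊆ T := filter_subset _ _

theorem ol_sub {T : Finset ℕ} {v : ℕ} : ol R T v ⊆ T := filter_subset _ _

theorem pl_card_lt {σ : ℕ → ℕ} {T : Finset ℕ} {v : ℕ} (hv : v ∈ T) :
    (pl g σ T v).card < T.card := by
  apply card_lt_card
  rw [ssubset_iff_of_subset pl_sub]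
  refine ⟨v, hv, ?_⟩
  intro h
  rw [mem_pl] at h
  exact h.2.1.ne rfl

theorem cnt_small {σ : ℕ → ℕ} {T : Finset ℕ} {c : ℕ} (h : T.card ≤ c) :
    cnt g σ T c = T.card := by
  unfold cnt
  congr 1
  rw [filter_eq_self]
  intro v hv
  exact (pl_card_lt hv).trans_le h

theorem cnt_le {σ : ℕ → ℕ} {T : Finset ℕ} {c : ℕ} : cnt g σ T c ≤ T.card :=
  card_le_card (filter_subset _ _)

theorem cnt_first {σ : ℕ → ℕ} {T : Finset ℕ} {y : ℕ} (hy : y ∈ T)
    (hmin : ∀ v ∈ T, v ≠ y → σ y < σ v) (c : ℕ) :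
    cnt g σ T c = (if (nb g T y).card < c then 1 else 0) + cnt g σ (T.erase y) c := by
  unfold cnt
  rw [card_filter, card_filter, ← sum_erase_add T _ hy, add_comm]
  congr 1
  · have : pl g σ T y = nb g T y := by
      ext u
      rw [mem_pl, mem_nb]
      constructor
      · rintro ⟨h1, h2, _⟩
        exact ⟨h1, h2⟩
      · rintro ⟨h1, h2⟩
        exact ⟨h1, h2, hmin u h1 h2.ne.symm⟩
    rw [this]
  · apply sum_congr rfl
    intro v hv
    have : pl g σ T v = pl g σ (T.erase y) v := by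
      ext u
      rw [mem_pl, mem_pl, mem_erase]
      constructor
      · rintro ⟨h1, h2, h3⟩
        refine ⟨⟨?_, h1⟩, h2, h3⟩
        rintro rfl
        have := hmin v (mem_of_mem_erase hv) (ne_of_mem_erase hv)
        omega
      · rintro ⟨h1, h2, h3⟩
        exact ⟨h1.2, h2, h3⟩
    rw [this]

/-- at least `c` vertices have fewer than `c` later neighbours -/
theorem cnt_ge {σ : ℕ → ℕ} (c : ℕ) : ∀ (n : ℕ) (T : Finset ℕ), T.card = n →
    (∀ u ∈ T, ∀ v ∈ T, σ u = σ v → u = v) → min n c ≤ cnt g σ T c := by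
  intro n
  induction n with
  | zero => intro T _ _; simp
  | succ n ih =>
    intro T hT hinj
    rcases Nat.lt_or_ge c (n + 1) with h | h
    · have hne : T.Nonempty := by
        rw [← card_pos]
        omega
      obtain ⟨y, hy, hmin⟩ := exists_first hinj hne
      have h1 := ih (T.erase y) (by rw [card_erase_of_mem hy]; omega)
        (fun u hu v hv => hinj u (mem_of_mem_erase hu) v (mem_of_mem_erase hv))
      rw [cnt_first hy hmin c]
      omega
    · rw [cnt_small (by omega)]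
      omega

theorem cnt_min {σ : ℕ → ℕ} {T : Finset ℕ} (h : Peo g σ T) (c : ℕ) :
    min T.card c ≤ cnt g σ T c := cnt_ge c _ T rfl h.inj

/-- Removing a vertex. -/
theorem cnt_erase {σ : ℕ → ℕ} {T : Finset ℕ} (hcv : Cv R T) (h : Peo (ad R) σ T) {w : ℕ}
    (hw : w ∈ T) (c : ℕ) : 1 + cnt (ad R) σ (T.erase w) c ≤ cnt (ad R) σ T (c + 1) := by
  obtain ⟨m, hm⟩ : ∃ m, T.card = m + 1 := by
    have := card_pos.2 ⟨w, hw⟩
    exact ⟨T.card - 1, by omega⟩
  obtain ⟨τ, hτ, hlast⟩ := exists_last m T hm hcv w hw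
  rw [cnt_unique h hτ, cnt_unique (h.mono (erase_subset w T)) (hτ.mono (erase_subset w T))]
  unfold cnt
  have h1 : insert w ((T.erase w).filter fun v => (pl (ad R) τ (T.erase w) v).card < c) ⊆
      T.filter fun v => (pl (ad R) τ T v).card < c + 1 := by
    intro v hv
    rw [mem_insert, mem_filter] at hv
    rw [mem_filter]
    rcases hv with rfl | ⟨hv, hc⟩
    · refine ⟨hw, ?_⟩
      have : pl (ad R) τ T v = ∅ := by
        rw [eq_empty_iff_forall_notMem]
        intro u hu
        rw [mem_pl] at hu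
        have := hlast u hu.1 hu.2.1.ne.symm
        omega
      rw [this, card_empty]
      omega
    · refine ⟨mem_of_mem_erase hv, ?_⟩
      have h2 : pl (ad R) τ T v ⊆ insert w (pl (ad R) τ (T.erase w) v) := by
        intro u hu
        rw [mem_pl] at hu
        rw [mem_insert, mem_pl, mem_erase]
        by_cases h : u = w
        · exact Or.inl h
        · exact Or.inr ⟨⟨h, hu.1⟩, hu.2⟩
      have h3 := (card_le_card h2).trans (card_insert_le _ _)
      omega
  have h2 := card_le_card h1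
  rw [card_insert_of_notMem] at h2
  · omega
  · rw [mem_filter, mem_erase]
    rintro ⟨⟨h3, _⟩, _⟩
    exact h3 rfl

theorem pl_union_left {σ : ℕ → ℕ} {M O : Finset ℕ} {v : ℕ} (h : ∀ u ∈ O, ¬ C g v u) :
    pl g σ (M ∪ O) v = pl g σ M v := by
  ext u
  rw [mem_pl, mem_pl, mem_union]
  constructor
  · rintro ⟨h1 | h1, h2⟩
    · exact ⟨h1, h2⟩
    · exact absurd h2.1 (h u h1)
  · rintro ⟨h1, h2⟩
    exact ⟨Or.inl h1, h2⟩

theorem cnt_union {σ : ℕ → ℕ} {M O : Finset ℕ} (hd : Disjoint M O)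
    (h : ∀ u ∈ M, ∀ v ∈ O, ¬ C g u v) (c : ℕ) :
    cnt g σ (M ∪ O) c = cnt g σ M c + cnt g σ O c := by
  unfold cnt
  rw [card_filter, card_filter, card_filter, sum_union hd]
  congr 1
  · apply sum_congr rfl
    intro v hv
    rw [pl_union_left (h v hv)]
  · apply sum_congr rfl
    intro v hv
    rw [union_comm, pl_union_left (fun u hu hc => h u hu v hv hc.symm)]

/-- `T` is the union of two nonempty parts without non-adjacent pairs between them -/
structure Spl (g : ℕ → ℕ → Bool) (T M O : Finset ℕ) : Prop where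
  un : M ∪ O = T
  dj : Disjoint M O
  ne1 : M.Nonempty
  ne2 : O.Nonempty
  nc : ∀ u ∈ M, ∀ v ∈ O, ¬ C g u v

theorem Spl.symm {T M O : Finset ℕ} (h : Spl g T M O) : Spl g T O M where
  un := by rw [union_comm]; exact h.un
  dj := h.dj.symm
  ne1 := h.ne2
  ne2 := h.ne1
  nc := fun u hu v hv hc => h.nc v hv u hu hc.symm

theorem Spl.cnt {σ : ℕ → ℕ} {T M O : Finset ℕ} (h : Spl g T M O) (c : ℕ) :
    cnt g σ T c = cnt g σ M c + cnt g σ O c := by
  rw [← h.un]
  exact cnt_union h.dj h.nc c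

theorem Spl.card {T M O : Finset ℕ} (h : Spl g T M O) : T.card = M.card + O.card := by
  rw [← h.un, card_union_of_disjoint h.dj]

theorem exists_spl {σ : ℕ → ℕ} : ∀ (n : ℕ) (T : Finset ℕ), T.card = n → Peo g σ T →
    2 ≤ cnt g σ T 1 → ∃ M O, Spl g T M O := by
  intro n
  induction n with
  | zero =>
    intro T hT _ h
    have := cnt_le (g := g) (σ := σ) (T := T) (c := 1)
    omega
  | succ n ih =>
    intro T hT hp h
    have hne : T.Nonempty := by
      rw [← card_pos]
      omega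
    obtain ⟨y, hy, hmin⟩ := exists_first hp.inj hne
    have hc := cnt_first (g := g) hy hmin 1
    by_cases h1 : (nb g T y).card < 1
    · rw [if_pos h1] at hc
      have h2 : nb g T y = ∅ := by
        rw [← card_eq_zero]
        omega
      have h3 := cnt_le (g := g) (σ := σ) (T := T.erase y) (c := 1)
      refine ⟨{y}, T.erase y, ?_, ?_, singleton_nonempty y, ?_, ?_⟩
      · rw [← insert_eq, insert_erase hy]
      · rw [disjoint_singleton_left]
        exact notMem_erase y T
      · rw [← card_pos]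
        omega
      · intro u hu v hv huv
        rw [mem_singleton] at hu
        subst hu
        have : v ∈ nb g T u := mem_nb.2 ⟨mem_of_mem_erase hv, huv⟩
        rw [h2] at this
        simp at this
    · rw [if_neg h1, zero_add] at hc
      obtain ⟨M, O, hs⟩ := ih (T.erase y) (by rw [card_erase_of_mem hy]; omega)
        (hp.mono (erase_subset _ _)) (by omega)
      have hsimp := first_simp hp hy hmin
      have hyM : ∀ P : Finset ℕ, P ⊆ T.erase y → y ∉ P := fun P hP h => notMem_erase y T (hP h)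
      have hMs : M ⊆ T.erase y := by
        rw [← hs.un]
        exact subset_union_left
      have hOs : O ⊆ T.erase y := by
        rw [← hs.un]
        exact subset_union_right
      -- add `y` to the part which contains its neighbours
      have key : ∀ M O : Finset ℕ, Spl g (T.erase y) M O → M ⊆ T.erase y → O ⊆ T.erase y →
          (∀ v ∈ O, ¬ C g y v) → ∃ M O, Spl g T M O := by
        intro M O hs hM hO hn
        refine ⟨insert y M, O, ?_, ?_, insert_nonempty y M, hs.ne2, ?_⟩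
        · rw [insert_union, hs.un, insert_erase hy]
        · rw [disjoint_insert_left]
          exact ⟨hyM O hO, hs.dj⟩
        · intro u hu v hv
          rw [mem_insert] at hu
          rcases hu with rfl | hu
          · exact hn v hv
          · exact hs.nc u hu v hv
      by_cases h2 : ∃ u ∈ M, C g y u
      · obtain ⟨u, hu, huy⟩ := h2
        apply key M O hs hMs hOs
        intro v hv hyv
        refine hs.nc u hu v hv (hsimp u (mem_of_mem_erase (hMs hu)) v
          (mem_of_mem_erase (hOs hv)) huy.symm hyv.symm ?_)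
        rintro rfl
        exact disjoint_left.1 hs.dj hu hv
      · push Not at h2
        exact key O M hs.symm hOs hMs h2

/-- `T` is the union of three nonempty parts without non-adjacent pairs between them -/
structure Tri (g : ℕ → ℕ → Bool) (T P Q W : Finset ℕ) : Prop where
  un : P ∪ Q ∪ W = T
  d1 : Disjoint P Q
  d2 : Disjoint P W
  d3 : Disjoint Q W
  n1 : P.Nonempty
  n2 : Q.Nonempty
  n3 : W.Nonempty
  c1 : ∀ u ∈ P, ∀ v ∈ Q, ¬ C g u v
  c2 : ∀ u ∈ P, ∀ v ∈ W, ¬ C g u v
  c3 : ∀ u ∈ Q, ∀ v ∈ W, ¬ C g u v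

theorem Tri.swap12 {T P Q W : Finset ℕ} (h : Tri g T P Q W) : Tri g T Q P W where
  un := by rw [union_comm Q P]; exact h.un
  d1 := h.d1.symm
  d2 := h.d3
  d3 := h.d2
  n1 := h.n2
  n2 := h.n1
  n3 := h.n3
  c1 := fun u hu v hv hc => h.c1 v hv u hu hc.symm
  c2 := h.c3
  c3 := h.c2

theorem Tri.swap23 {T P Q W : Finset ℕ} (h : Tri g T P Q W) : Tri g T P W Q where
  un := by rw [union_assoc, union_comm W Q, ← union_assoc]; exact h.un
  d1 := h.d2
  d2 := h.d1
  d3 := h.d3.symm
  n1 := h.n1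
  n2 := h.n3
  n3 := h.n2
  c1 := h.c2
  c2 := h.c1
  c3 := fun u hu v hv hc => h.c3 v hv u hu hc.symm

theorem Tri.card {T P Q W : Finset ℕ} (h : Tri g T P Q W) :
    T.card = P.card + Q.card + W.card := by
  rw [← h.un, card_union_of_disjoint, card_union_of_disjoint h.d1]
  rw [disjoint_union_left]
  exact ⟨h.d2, h.d3⟩

theorem Tri.sort {T P Q W : Finset ℕ} (h : Tri g T P Q W) :
    ∃ P Q W, Tri g T P Q W ∧ Q.card ≤ P.card ∧ W.card ≤ Q.card := by
  rcases Nat.le_total P.card Q.card with h1 | h1 <;>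
    rcases Nat.le_total P.card W.card with h2 | h2 <;>
      rcases Nat.le_total Q.card W.card with h3 | h3
  · exact ⟨W, Q, P, h.swap12.swap23.swap12, h3, h1⟩
  · exact ⟨Q, W, P, h.swap12.swap23, h3, h2⟩
  · exact ⟨Q, P, W, h.swap12, h1, h2⟩
  · exact ⟨Q, P, W, h.swap12, h1, h2⟩
  · exact ⟨W, P, Q, h.swap23.swap12, h2, h1⟩
  · exact ⟨W, P, Q, h.swap23.swap12, h2, h1⟩
  · exact ⟨P, W, Q, h.swap23, h2, h3⟩
  · exact ⟨P, Q, W, h, h1, h3⟩

theorem exists_tri {σ : ℕ → ℕ} {T : Finset ℕ} (hp : Peo g σ T) (h : 3 ≤ cnt g σ T 1) :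
    ∃ P Q W, Tri g T P Q W ∧ Q.card ≤ P.card ∧ W.card ≤ Q.card := by
  have key : ∀ M O, Spl g T M O → 2 ≤ cnt g σ M 1 →
      ∃ P Q W, Tri g T P Q W ∧ Q.card ≤ P.card ∧ W.card ≤ Q.card := by
    intro M O hs h2
    have hM : M ⊆ T := by
      rw [← hs.un]
      exact subset_union_left
    obtain ⟨M1, M2, hs2⟩ := exists_spl _ M rfl (hp.mono hM) h2
    have hM1 : ∀ u ∈ M1, u ∈ M := by
      intro u hu
      rw [← hs2.un]
      exact mem_union_left _ hu
    have hM2 : ∀ u ∈ M2, u ∈ M := by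
      intro u hu
      rw [← hs2.un]
      exact mem_union_right _ hu
    have htri : Tri g T M1 M2 O :=
      { un := by rw [hs2.un, hs.un]
        d1 := hs2.dj
        d2 := disjoint_of_subset_left hM1 hs.dj
        d3 := disjoint_of_subset_left hM2 hs.dj
        n1 := hs2.ne1
        n2 := hs2.ne2
        n3 := hs.ne2
        c1 := hs2.nc
        c2 := fun u hu v hv => hs.nc u (hM1 u hu) v hv
        c3 := fun u hu v hv => hs.nc u (hM2 u hu) v hv }
    exact htri.sort
  obtain ⟨M, O, hs⟩ := exists_spl _ T rfl hp (by omega)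
  have hc := hs.cnt (σ := σ) 1
  rcases Nat.lt_or_ge (cnt g σ M 1) 2 with h1 | h1
  · exact key O M hs.symm (by omega)
  · exact key M O hs h1

/-- the vertices without out-neighbours -/
def eA (R : ℕ → ℕ → Bool) (S : Finset ℕ) : Finset ℕ := S.filter fun v => ol R S v = ∅

theorem mem_eA {S : Finset ℕ} {v : ℕ} : v ∈ eA R S ↔ v ∈ S ∧ ol R S v = ∅ := by
  unfold eA
  rw [mem_filter]

theorem sysT {S : Finset ℕ} {τ : ℕ → ℕ} (h : Cv R S) (hp : Peo (ad R) τ S) :
    Sys (ol R S) (pl (ad R) τ S) S := by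
  apply sys_of h
  · intro x _ y hy _
    exact (mem_pl.1 hy).2.1
  · intro x _ y _ hx hy
    have h1 := (mem_pl.1 hx).2.2
    have h2 := (mem_pl.1 hy).2.2
    omega
  · intro x hx y hy z hz h1 h2 h3
    have n1 : τ x ≠ τ y := fun h => h1.ne (hp.inj x hx y hy h)
    have n2 : τ x ≠ τ z := fun h => h2.ne (hp.inj x hx z hz h)
    have n3 : τ y ≠ τ z := fun h => h3.ne (hp.inj y hy z hz h)
    simp only [mem_pl]
    rcases lt_or_gt_of_ne n1 with l1 | l1
    · rcases lt_or_gt_of_ne n2 with l2 | l2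
      · exact Or.inl ⟨⟨hy, h1, l1⟩, hz, h2, l2⟩
      · exact Or.inr (Or.inr ⟨⟨hx, h2.symm, l2⟩, hy, h3.symm, l2.trans l1⟩)
    · rcases lt_or_gt_of_ne n3 with l3 | l3
      · exact Or.inr (Or.inl ⟨⟨hx, h1.symm, l1⟩, hz, h3, l3⟩)
      · exact Or.inr (Or.inr ⟨⟨hx, h2.symm, l3.trans l1⟩, hy, h3.symm, l3⟩)

theorem three' {S : Finset ℕ} {τ : ℕ → ℕ} (h : Cv R S) (hp : Peo (ad R) τ S)
    (h2 : 2 ≤ S.card) : 3 ≤ (eA R S).card + cnt (ad R) τ S 1 := by
  have h3 := three (S.card - 2) S (by omega) (sysT h hp)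
  have e1 : emp (ol R S) S = eA R S := by
    ext v
    rw [mem_emp, mem_eA, inter_eq_left.2 ol_sub]
  have e2 : (emp (pl (ad R) τ S) S).card = cnt (ad R) τ S 1 := by
    unfold cnt
    congr 1
    ext v
    rw [mem_emp, mem_filter, inter_eq_left.2 pl_sub, Nat.lt_one_iff, card_eq_zero]
  rw [e1, e2] at h3
  exact h3

end Pool.Agent.N439.OD
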